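import Mathlib
import Pool.Agent.Work.MP_787500_nt.QV.LagN
import Pool.Agent.Work.MP_787500_nt.KR.L12
import Pool.Agent.Work.MP_787500_nt.KR.L15
import Pool.Agent.Work.MP_787500_nt.GP.F04_Alt
import Pool.Agent.Work.MP_787500_nt.GP.L13_CardN

/-!
The ordinary condition at a place (phase E5): definitions (fixed, do not change).

`P` is the local group, `(ρ, β, Sm, J)` a quadratic representation on `E ^ n` with the lattice `T`. `Spl` says that
`E ^ n` is in coordinates the sum of a stable subspace `i (E ^ m)` on which `β` vanishes and of the complement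
`s (E ^ m)`, `T` is the sum of `i T'` and `s T'`; `ρp` is the action on the subspace, `ρm` the action on the quotient.
For `w` in `E ^ m` (a vector of the quotient) `s w` is its lift and `i (r (ρ g (s w)))` is the component of
`ρ g (s w)` in the subspace.
-/

set_option autoImplicit false
set_option linter.unusedSectionVars false

namespace Pool.Agent.Work.MP_787500_nt.OP

open Matrix
open Pool.Agent.Work.MP_787500_nt.GP (A0 IsAct d0 d1 d2 tw cup11 cup21 cup12 cup01 cup02 EvPow IsPow OE MN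
  actN actQ bN bil mq lft mq_lft mq_eq mq_add mq_smul Wq Lat pr0 lamN mem_OE bil_add_left bil_add_right bil_sub_left
  bil_sub_right bil_smul_left bil_smul_right pr0_zero_of_norm actQ_mq)
open Pool.Agent.Work.MP_787500_nt.KR (FSys Sm1 Sm2 IsChar Smooth Z1 Z2 B2 LocH LocD Pair LDual LocRep ZV PerpV zV)
open Pool.Agent.Work.MP_787500_nt.QS (QM Lag pB Zq)
open Pool.Agent.Work.MP_787500_nt.QV (QRep LagV beN laN lamE)
open Pool.Agent.Work.MP_787500_nt.PA (toE)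

variable {E : Type*} [NormedField E] [NormedAlgebra ℚ_[2] E] {n m : ℕ} {P : Type*} [Group P]

/-- Coordinates adapted to a stable subspace on which the form vanishes. -/
structure Spl (TP : FSys P) (χ : P → ℤ_[2]) (l : OE E) (t : E →ₗ[ℚ_[2]] ℚ_[2])
    (T : Submodule (OE E) (Fin n → E)) (β : Matrix (Fin n) (Fin n) E)
    (ρ : P → Matrix (Fin n) (Fin n) E) (i s : (Fin m → E) →ₗ[E] (Fin n → E))
    (r p : (Fin n → E) →ₗ[E] (Fin m → E)) (T' : Submodule (OE E) (Fin m → E))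
    (b' : Matrix (Fin m) (Fin m) E) (ρp ρm : P → Matrix (Fin m) (Fin m) E) : Prop where
  pi : ∀ x, p (i x) = 0
  ps : ∀ x, p (s x) = x
  ri : ∀ x, r (i x) = x
  rs : ∀ x, r (s x) = 0
  dec : ∀ x, i (r x) + s (p x) = x
  mem : ∀ x, x ∈ T ↔ r x ∈ T' ∧ p x ∈ T'
  actp : ∀ g x, ρ g *ᵥ i x = i (ρp g *ᵥ x)
  actm : ∀ g x, p (ρ g *ᵥ x) = ρm g *ᵥ p x
  be0 : ∀ x y, bil β (i x) (i y) = 0
  pair : ∀ x y, bil β (i x) y - bil β y (i x) = bil b' x (p y)
  lat : Lat b' l t T'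
  rep : LocRep TP χ T' b' ρm ρp

/-- the vectors that are fixed modulo the lattice -/
def Ac (ρm : P → Matrix (Fin m) (Fin m) E) (T' : Submodule (OE E) (Fin m → E)) :
    Submodule (OE E) (Fin m → E) where
  carrier := {w | ∀ g, ρm g *ᵥ w - w ∈ T'}
  add_mem' := fun {x y} hx hy g => by
    have h : ρm g *ᵥ (x + y) - (x + y) = (ρm g *ᵥ x - x) + (ρm g *ᵥ y - y) := by
      rw [mulVec_add]
      abel
    rw [h]
    exact T'.add_mem (hx g) (hy g)
  zero_mem' := fun g => by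
    rw [mulVec_zero, sub_zero]
    exact T'.zero_mem
  smul_mem' := fun a x hx g => by
    have h : ρm g *ᵥ (a • x) - a • x = a • (ρm g *ᵥ x - x) := by
      rw [smul_sub]
      congr 1
      exact mulVec_smul _ (a : E) x
    rw [h]
    exact T'.smul_mem a (hx g)

theorem mem_Ac {ρm : P → Matrix (Fin m) (Fin m) E} {T' : Submodule (OE E) (Fin m → E)}
    {w : Fin m → E} : w ∈ Ac ρm T' ↔ ∀ g, ρm g *ᵥ w - w ∈ T' := Iff.rfl

/-- the fixed vectors -/
def KE (ρm : P → Matrix (Fin m) (Fin m) E) : Submodule E (Fin m → E) where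
  carrier := {w | ∀ g, ρm g *ᵥ w = w}
  add_mem' := fun {x y} hx hy g => by rw [mulVec_add, hx g, hy g]
  zero_mem' := fun g => mulVec_zero _
  smul_mem' := fun a x hx g => by rw [mulVec_smul, hx g]

theorem mem_KE {ρm : P → Matrix (Fin m) (Fin m) E} {w : Fin m → E} :
    w ∈ KE ρm ↔ ∀ g, ρm g *ᵥ w = w := Iff.rfl

/-- fixed vectors plus the lattice -/
def Ko (ρm : P → Matrix (Fin m) (Fin m) E) (T' : Submodule (OE E) (Fin m → E)) :
    Submodule (OE E) (Fin m → E) := (KE ρm).restrictScalars (OE E) ⊔ T'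

theorem mem_Ko {ρm : P → Matrix (Fin m) (Fin m) E} {T' : Submodule (OE E) (Fin m → E)}
    {w : Fin m → E} : w ∈ Ko ρm T' ↔ ∃ k ∈ KE ρm, ∃ x ∈ T', k + x = w := by
  rw [Ko, Submodule.mem_sup]
  rfl

/-- the finite module `X` -/
abbrev XA (ρm : P → Matrix (Fin m) (Fin m) E) (T' : Submodule (OE E) (Fin m → E)) : Type _ :=
  ↥(Ac ρm T') ⧸ (Ko ρm T').comap (Ac ρm T').subtype

/-- the class in `X` -/
def xm (ρm : P → Matrix (Fin m) (Fin m) E) (T' : Submodule (OE E) (Fin m → E)) :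
    ↥(Ac ρm T') →ₗ[OE E] XA ρm T' := ((Ko ρm T').comap (Ac ρm T').subtype).mkQ

theorem xm_surj (ρm : P → Matrix (Fin m) (Fin m) E) (T' : Submodule (OE E) (Fin m → E)) :
    Function.Surjective (xm ρm T') := Submodule.mkQ_surjective _

theorem xm_eq_zero {ρm : P → Matrix (Fin m) (Fin m) E} {T' : Submodule (OE E) (Fin m → E)}
    {w : ↥(Ac ρm T')} : xm ρm T' w = 0 ↔ (w : Fin m → E) ∈ Ko ρm T' := by
  rw [xm, Submodule.mkQ_apply, Submodule.Quotient.mk_eq_zero]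
  rfl

/-- the vectors of `Ac` whose coboundary lifts to a cocycle with values in the lattice -/
def Ap (TP : FSys P) (ρ : P → Matrix (Fin n) (Fin n) E) (s : (Fin m → E) →ₗ[E] (Fin n → E))
    (r : (Fin n → E) →ₗ[E] (Fin m → E)) (ρp ρm : P → Matrix (Fin m) (Fin m) E)
    (T' : Submodule (OE E) (Fin m → E)) : Submodule (OE E) ↥(Ac ρm T') where
  carrier := {w | ∃ Y, ZV TP ρp Y ∧ ∀ g, r (ρ g *ᵥ s (w : Fin m → E)) - Y g ∈ T'}
  add_mem' := by
    rintro x y ⟨Y, hY, h1⟩ ⟨Y', hY', h1'⟩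
    refine ⟨Y + Y', (zV TP ρp).add_mem hY hY', fun g => ?_⟩
    have h : r (ρ g *ᵥ s ((x + y : ↥(Ac ρm T')) : Fin m → E)) - (Y + Y') g =
        (r (ρ g *ᵥ s (x : Fin m → E)) - Y g) + (r (ρ g *ᵥ s (y : Fin m → E)) - Y' g) := by
      rw [Submodule.coe_add, map_add, mulVec_add, map_add, Pi.add_apply]
      abel
    rw [h]
    exact T'.add_mem (h1 g) (h1' g)
  zero_mem' := ⟨0, (zV TP ρp).zero_mem, fun g => by
    rw [Submodule.coe_zero, map_zero, mulVec_zero, map_zero, Pi.zero_apply, sub_zero]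
    exact T'.zero_mem⟩
  smul_mem' := by
    rintro a x ⟨Y, hY, h1⟩
    refine ⟨(a : E) • Y, (zV TP ρp).smul_mem _ hY, fun g => ?_⟩
    have h : r (ρ g *ᵥ s ((a • x : ↥(Ac ρm T')) : Fin m → E)) - ((a : E) • Y) g =
        a • (r (ρ g *ᵥ s (x : Fin m → E)) - Y g) := by
      have e1 : ((a • x : ↥(Ac ρm T')) : Fin m → E) = (a : E) • (x : Fin m → E) := rfl
      rw [e1, map_smul, mulVec_smul, map_smul, Pi.smul_apply, smul_sub]
      rfl
    rw [h]
    exact T'.smul_mem a (h1 g)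

theorem mem_Ap {TP : FSys P} {ρ : P → Matrix (Fin n) (Fin n) E}
    {s : (Fin m → E) →ₗ[E] (Fin n → E)} {r : (Fin n → E) →ₗ[E] (Fin m → E)}
    {ρp ρm : P → Matrix (Fin m) (Fin m) E} {T' : Submodule (OE E) (Fin m → E)}
    {w : ↥(Ac ρm T')} : w ∈ Ap TP ρ s r ρp ρm T' ↔
      ∃ Y, ZV TP ρp Y ∧ ∀ g, r (ρ g *ᵥ s (w : Fin m → E)) - Y g ∈ T' := Iff.rfl

/-- the pairing of `w'` and `w` as a cochain with values in `E` -/
def Fw (b' : Matrix (Fin m) (Fin m) E) (ρ : P → Matrix (Fin n) (Fin n) E)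
    (s : (Fin m → E) →ₗ[E] (Fin n → E)) (r : (Fin n → E) →ₗ[E] (Fin m → E))
    (ρp ρm : P → Matrix (Fin m) (Fin m) E) (w' w : Fin m → E) : P → P → E :=
  fun g u => bil b' (ρm g *ᵥ w' - w') (ρp g *ᵥ r (ρ u *ᵥ s w))

/-- THE ORDINARY CONDITION: the continuous cocycles that are coboundaries modulo the subspace -/
def ordL (TP : FSys P) (ρ : P → Matrix (Fin n) (Fin n) E) (p : (Fin n → E) →ₗ[E] (Fin m → E))
    (ρm : P → Matrix (Fin m) (Fin m) E) : Submodule E (P → Fin n → E) where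
  carrier := {X | ZV TP ρ X ∧ ∃ v, ∀ g, p (X g) = ρm g *ᵥ v - v}
  add_mem' := by
    rintro X Y ⟨h1, v, h2⟩ ⟨h1', v', h2'⟩
    refine ⟨(zV TP ρ).add_mem h1 h1', v + v', fun g => ?_⟩
    rw [Pi.add_apply, map_add, h2, h2', mulVec_add]
    abel
  zero_mem' := ⟨(zV TP ρ).zero_mem, 0, fun g => by
    rw [Pi.zero_apply, map_zero, mulVec_zero, sub_zero]⟩
  smul_mem' := by
    rintro a X ⟨h1, v, h2⟩
    refine ⟨(zV TP ρ).smul_mem a h1, a • v, fun g => ?_⟩
    rw [Pi.smul_apply, map_smul, h2, mulVec_smul, smul_sub]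

theorem mem_ordL {TP : FSys P} {ρ : P → Matrix (Fin n) (Fin n) E}
    {p : (Fin n → E) →ₗ[E] (Fin m → E)} {ρm : P → Matrix (Fin m) (Fin m) E}
    {X : P → Fin n → E} :
    X ∈ ordL TP ρ p ρm ↔ ZV TP ρ X ∧ ∃ v, ∀ g, p (X g) = ρm g *ᵥ v - v := Iff.rfl

section basic

variable {TP : FSys P} {χ : P → ℤ_[2]} {l : OE E} {t : E →ₗ[ℚ_[2]] ℚ_[2]}
  {T : Submodule (OE E) (Fin n → E)} {β : Matrix (Fin n) (Fin n) E}
  {ρ : P → Matrix (Fin n) (Fin n) E} {i s : (Fin m → E) →ₗ[E] (Fin n → E)}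
  {r p : (Fin n → E) →ₗ[E] (Fin m → E)} {T' : Submodule (OE E) (Fin m → E)}
  {b' : Matrix (Fin m) (Fin m) E} {ρp ρm : P → Matrix (Fin m) (Fin m) E}

theorem Spl.sT (hS : Spl TP χ l t T β ρ i s r p T' b' ρp ρm) {w : Fin m → E} (hw : w ∈ T') :
    s w ∈ T := (hS.mem _).2 ⟨by rw [hS.rs]; exact T'.zero_mem, by rw [hS.ps]; exact hw⟩

theorem Spl.iT (hS : Spl TP χ l t T β ρ i s r p T' b' ρp ρm) {w : Fin m → E} :
    i w ∈ T ↔ w ∈ T' := by
  rw [hS.mem, hS.ri, hS.pi]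
  exact ⟨fun h => h.1, fun h => ⟨h, T'.zero_mem⟩⟩

/-- `ρ g (s w)` in coordinates -/
theorem Spl.act_s (hS : Spl TP χ l t T β ρ i s r p T' b' ρp ρm) (g : P) (w : Fin m → E) :
    ρ g *ᵥ s w = i (r (ρ g *ᵥ s w)) + s (ρm g *ᵥ w) := by
  conv_lhs => rw [← hS.dec (ρ g *ᵥ s w)]
  rw [hS.actm, hS.ps]

end basic

end Pool.Agent.Work.MP_787500_nt.OP
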