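import Mathlib
import Pool.Agent.Work.MP_787500_nt.OP.Defs

/-!
The ordinary condition at a place (phase E5): basic lemmas.
-/

set_option autoImplicit false
set_option linter.unusedSectionVars false

namespace Pool.Agent.Work.MP_787500_nt.OP

open Matrix
open Pool.Agent.Work.MP_787500_nt.GP (A0 IsAct d0 d1 d2 tw cup11 cup21 cup12 cup01 cup02 EvPow IsPow OE MN
  actN actQ bN bil mq lft mq_lft mq_eq mq_add mq_smul Wq Lat pr0 lamN mem_OE bil_add_left bil_add_right bil_sub_left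
  bil_sub_right bil_smul_left bil_smul_right pr0_zero_of_norm actQ_mq)
open Pool.Agent.Work.MP_787500_nt.KR (FSys Sm1 Sm2 IsChar Smooth Z1 Z2 B2 LocH LocD Pair LDual LocRep ZV PerpV zV)
open Pool.Agent.Work.MP_787500_nt.QS (QM Lag pB Zq)
open Pool.Agent.Work.MP_787500_nt.QV (QRep LagV beN laN lamE)
open Pool.Agent.Work.MP_787500_nt.PA (toE)

universe v

section n1

variable {D : Type*} [Group D] {SD : FSys D}

theorem n1_bdd {A : Type*} [NormedAddCommGroup A] {X : D → A} (hX : KP.N1 SD X) :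
    ∃ C : ℝ, ∀ d, ‖X d‖ ≤ C := by
  obtain ⟨W, hW, h1⟩ := hX 1 one_pos
  have hfi : W.FiniteIndex := ⟨SD.index hW⟩
  have hfin : Finite (D ⧸ W) := Subgroup.finite_quotient_of_finiteIndex
  obtain ⟨C, hC⟩ := (Set.finite_range (fun q : D ⧸ W => ‖X q.out‖ + 1)).bddAbove
  refine ⟨C, fun d => ?_⟩
  obtain ⟨w, hw⟩ := QuotientGroup.mk_out_eq_mul W d
  have h2 := (h1 d w w.2).le
  have h3 : ‖X d‖ ≤ ‖X (d * w)‖ + ‖X (d * w) - X d‖ := by
    have := norm_sub_le (X (d * w)) (X (d * w) - X d)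
    rwa [sub_sub_cancel] at this
  refine le_trans ?_ (hC ⟨(d : D ⧸ W), rfl⟩)
  show ‖X d‖ ≤ ‖X ((d : D ⧸ W).out)‖ + 1
  rw [hw]
  linarith

theorem n1_add {A : Type*} [NormedAddCommGroup A] {X Y : D → A} (hX : KP.N1 SD X)
    (hY : KP.N1 SD Y) : KP.N1 SD (fun d => X d + Y d) := by
  intro ε hε
  obtain ⟨W, hW, h1⟩ := hX (ε / 2) (half_pos hε)
  obtain ⟨W', hW', h1'⟩ := hY (ε / 2) (half_pos hε)
  refine ⟨W ⊓ W', SD.inf hW hW', fun g w hw => ?_⟩
  have h3 : (X (g * w) + Y (g * w)) - (X g + Y g) =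
      (X (g * w) - X g) + (Y (g * w) - Y g) := by abel
  rw [h3]
  exact (norm_add_le _ _).trans_lt (by linarith [h1 g w hw.1, h1' g w hw.2])

theorem n1_sub_const {A : Type*} [NormedAddCommGroup A] {X : D → A} (hX : KP.N1 SD X) (v : A) :
    KP.N1 SD (fun d => X d - v) := by
  intro ε hε
  obtain ⟨W, hW, h1⟩ := hX ε hε
  refine ⟨W, hW, fun g w hw => ?_⟩
  rw [sub_sub_sub_cancel_right]
  exact h1 g w hw

variable {E : Type*} [NormedField E] [NormedAlgebra ℚ_[2] E] {n m : ℕ}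

theorem lin_bdd (f : (Fin n → E) →ₗ[E] (Fin m → E)) :
    ∃ C : ℝ, 0 ≤ C ∧ ∀ x, ‖f x‖ ≤ C * ‖x‖ := by
  have e : ∀ x, f x = (LinearMap.toMatrix' f) *ᵥ x := fun x => by
    rw [← Matrix.toLin'_apply, Matrix.toLin'_toMatrix']
  set A := LinearMap.toMatrix' f with hA
  refine ⟨∑ i, ∑ j, ‖A i j‖, Finset.sum_nonneg fun i _ => Finset.sum_nonneg fun j _ => norm_nonneg _,
    fun x => ?_⟩
  rw [e]
  refine (pi_norm_le_iff_of_nonneg (by positivity)).2 fun i => ?_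
  show ‖∑ j, A i j * x j‖ ≤ _
  refine (norm_sum_le _ _).trans ?_
  calc ∑ j, ‖A i j * x j‖ ≤ ∑ j, ‖A i j‖ * ‖x‖ := by
        refine Finset.sum_le_sum fun j _ => ?_
        rw [norm_mul]
        exact mul_le_mul_of_nonneg_left (norm_le_pi_norm x j) (norm_nonneg _)
    _ = (∑ j, ‖A i j‖) * ‖x‖ := by rw [Finset.sum_mul]
    _ ≤ (∑ i, ∑ j, ‖A i j‖) * ‖x‖ := by
        refine mul_le_mul_of_nonneg_right ?_ (norm_nonneg _)
        exact Finset.single_le_sum (f := fun i => ∑ j, ‖A i j‖)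
          (fun i _ => Finset.sum_nonneg fun j _ => norm_nonneg _) (Finset.mem_univ i)

theorem n1_lin (f : (Fin n → E) →ₗ[E] (Fin m → E)) {X : D → Fin n → E} (hX : KP.N1 SD X) :
    KP.N1 SD (fun d => f (X d)) := by
  obtain ⟨C, hC, hA⟩ := lin_bdd f
  intro ε hε
  obtain ⟨W, hW, h1⟩ := hX (ε / (C + 1)) (by positivity)
  refine ⟨W, hW, fun g w hw => ?_⟩
  rw [← map_sub]
  have h3 := h1 g w hw
  rw [lt_div_iff₀ (by positivity)] at h3
  have h4 := hA (X (g * w) - X g)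
  have h5 := norm_nonneg (X (g * w) - X g)
  nlinarith

theorem n1_bil (b : Matrix (Fin n) (Fin n) E) {P Q : D → Fin n → E}
    (hP : KP.N1 SD P) (hQ : KP.N1 SD Q) : KP.N1 SD (fun g => bil b (P g) (Q g)) := by
  obtain ⟨C, hC, hb⟩ := Gn.pair_bound b
  obtain ⟨A, hPb⟩ := n1_bdd hP
  obtain ⟨B, hQb⟩ := n1_bdd hQ
  have hA : 0 ≤ A := (norm_nonneg _).trans (hPb 1)
  have hB : 0 ≤ B := (norm_nonneg _).trans (hQb 1)
  intro ε hε
  set M : ℝ := C * (A + B) + 1 with hM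
  have hM0 : 0 < M := by positivity
  obtain ⟨W, hW, hsm⟩ := hP (ε / M) (by positivity)
  obtain ⟨W', hW', hsm'⟩ := hQ (ε / M) (by positivity)
  refine ⟨W ⊓ W', SD.inf hW hW', fun g w hw => ?_⟩
  have h1 : bil b (P (g * w)) (Q (g * w)) - bil b (P g) (Q g) =
      bil b (P (g * w) - P g) (Q (g * w)) + bil b (P g) (Q (g * w) - Q g) := by
    rw [bil_sub_left, bil_sub_right]
    ring
  show ‖bil b (P (g * w)) (Q (g * w)) - bil b (P g) (Q g)‖ < ε
  rw [h1]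
  have h2 : ‖bil b (P (g * w) - P g) (Q (g * w))‖ ≤ _ := hb (P (g * w) - P g) (Q (g * w))
  have h3 : ‖bil b (P g) (Q (g * w) - Q g)‖ ≤ _ := hb (P g) (Q (g * w) - Q g)
  have h4 := (hsm g w hw.1).le
  have h5 := (hsm' g w hw.2).le
  have h6 : C * ‖P (g * w) - P g‖ * ‖Q (g * w)‖ ≤ C * (ε / M) * B :=
    mul_le_mul (mul_le_mul_of_nonneg_left h4 hC) (hQb _) (norm_nonneg _) (by positivity)
  have h7 : C * ‖P g‖ * ‖Q (g * w) - Q g‖ ≤ C * A * (ε / M) :=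
    mul_le_mul (mul_le_mul_of_nonneg_left (hPb _) hC) h5 (norm_nonneg _) (by positivity)
  have h8 : C * (ε / M) * B + C * A * (ε / M) = (M - 1) * (ε / M) := by
    rw [hM]
    ring
  have h9 : (M - 1) * (ε / M) < ε := by
    rw [mul_div_assoc', div_lt_iff₀ hM0]
    nlinarith
  calc ‖bil b (P (g * w) - P g) (Q (g * w)) + bil b (P g) (Q (g * w) - Q g)‖
      ≤ ‖bil b (P (g * w) - P g) (Q (g * w))‖ + ‖bil b (P g) (Q (g * w) - Q g)‖ :=
        norm_add_le _ _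
    _ < ε := by linarith

end n1

section rep

variable {E : Type*} [NormedField E] [NormedAlgebra ℚ_[2] E] {n m : ℕ} {P : Type*} [Group P]
  {TP : FSys P} {χ : P → ℤ_[2]} {T : Submodule (OE E) (Fin n → E)} {b : Matrix (Fin n) (Fin n) E}
  {ρ ρ' : P → Matrix (Fin n) (Fin n) E}

theorem rep_swap (hb : bᵀ = b) (hr : LocRep TP χ T b ρ ρ') : LocRep TP χ T b ρ' ρ where
  one := hr.one'
  mul := hr.mul'
  one' := hr.one
  mul' := hr.mul
  st := hr.st'
  st' := hr.st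
  sm := hr.sm'
  sm' := hr.sm
  dual d x y := by
    rw [GP.bil_symm hb, hr.dual, GP.bil_symm hb]

/-- the coboundaries are continuous cocycles -/
theorem cob_zv [FiniteDimensional ℚ_[2] E] (hr : LocRep TP χ T b ρ ρ') (v : Fin n → E) :
    ZV TP ρ (fun d => ρ d *ᵥ v - v) := by
  have hr2 : LocRep TP χ T (0 : Matrix (Fin n) (Fin n) E) ρ' ρ :=
    ⟨hr.one', hr.mul', hr.one, hr.mul, hr.st', hr.st, hr.sm', hr.sm, fun d x y => by
      simp [bil]⟩
  exact (KR.cob_perpV hr2 (L := ⊥) (fun X hX => by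
    rw [(Submodule.mem_bot E).1 hX]
    exact (zV TP ρ').zero_mem) v).1

theorem n1_act [FiniteDimensional ℚ_[2] E] (hr : LocRep TP χ T b ρ ρ') (v : Fin n → E) :
    KP.N1 TP (fun d => ρ d *ᵥ v) := by
  intro ε hε
  obtain ⟨W, hW, h1⟩ := (cob_zv hr v).1 ε hε
  refine ⟨W, hW, fun g w hw => ?_⟩
  have h2 := h1 g w hw
  rwa [sub_sub_sub_cancel_right] at h2

end rep

section spl

variable {E : Type*} [NormedField E] [NormedAlgebra ℚ_[2] E] {n m : ℕ} {P : Type*} [Group P]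
  {TP : FSys P} {χ : P → ℤ_[2]} {l : OE E} {t : E →ₗ[ℚ_[2]] ℚ_[2]}
  {T : Submodule (OE E) (Fin n → E)} {β Sm J : Matrix (Fin n) (Fin n) E}
  {ρ : P → Matrix (Fin n) (Fin n) E} {i s : (Fin m → E) →ₗ[E] (Fin n → E)}
  {r p : (Fin n → E) →ₗ[E] (Fin m → E)} {T' : Submodule (OE E) (Fin m → E)}
  {b' : Matrix (Fin m) (Fin m) E} {ρp ρm : P → Matrix (Fin m) (Fin m) E}

/-- the component in the subspace is a cocycle up to the action on the quotient -/
theorem Spl.r_mul (h : QRep TP χ l t T β Sm J ρ) (hS : Spl TP χ l t T β ρ i s r p T' b' ρp ρm)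
    (g u : P) (w : Fin m → E) : r (ρ (g * u) *ᵥ s w) =
      ρp g *ᵥ r (ρ u *ᵥ s w) + r (ρ g *ᵥ s (ρm u *ᵥ w)) := by
  rw [h.rep.mul, ← mulVec_mulVec, hS.act_s u w, mulVec_add, map_add, hS.actp, hS.ri, map_add,
    hS.ri, hS.rs, add_zero]

/-- the components of a vector of the lattice -/
theorem Spl.rT (hS : Spl TP χ l t T β ρ i s r p T' b' ρp ρm) {x : Fin n → E} (hx : x ∈ T) :
    r x ∈ T' := ((hS.mem x).1 hx).1

theorem Spl.pT (hS : Spl TP χ l t T β ρ i s r p T' b' ρp ρm) {x : Fin n → E} (hx : x ∈ T) :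
    p x ∈ T' := ((hS.mem x).1 hx).2

/-- on the lattice the component in the subspace is integral -/
theorem Spl.r_act_mem (h : QRep TP χ l t T β Sm J ρ)
    (hS : Spl TP χ l t T β ρ i s r p T' b' ρp ρm) (g : P) {w : Fin m → E} (hw : w ∈ T') :
    r (ρ g *ᵥ s w) ∈ T' := hS.rT (h.rep.st g _ (hS.sT hw))

/-- modulo the lattice the component in the subspace is a cocycle -/
theorem Spl.r_coc (h : QRep TP χ l t T β Sm J ρ) (hS : Spl TP χ l t T β ρ i s r p T' b' ρp ρm)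
    (g u : P) {w : Fin m → E} (hw : w ∈ Ac ρm T') : r (ρ (g * u) *ᵥ s w) -
      (r (ρ g *ᵥ s w) + ρp g *ᵥ r (ρ u *ᵥ s w)) ∈ T' := by
  rw [hS.r_mul h g u w]
  have e : ρp g *ᵥ r (ρ u *ᵥ s w) + r (ρ g *ᵥ s (ρm u *ᵥ w)) -
      (r (ρ g *ᵥ s w) + ρp g *ᵥ r (ρ u *ᵥ s w)) = r (ρ g *ᵥ s (ρm u *ᵥ w - w)) := by
    rw [map_sub, mulVec_sub, map_sub]
    abel
  rw [e]
  exact hS.r_act_mem h g (hw u)

/-- the quotient form: the alternating form is invariant up to the character -/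
theorem alt_act (h : QRep TP χ l t T β Sm J ρ) (g : P) (x y : Fin n → E) :
    bil β (ρ g *ᵥ x) (ρ g *ᵥ y) - bil β (ρ g *ᵥ y) (ρ g *ᵥ x) =
      toE E (χ g) * (bil β x y - bil β y x) := by
  rw [h.alt, h.alt]
  have h1 := h.rep.dual g x (J *ᵥ y)
  rw [← h1]
  congr 1
  have h2 : J *ᵥ (J *ᵥ y) = y := by rw [mulVec_mulVec, h.jj, one_mulVec]
  show J *ᵥ (ρ g *ᵥ y) = (J * ρ g * J) *ᵥ (J *ᵥ y)
  rw [← mulVec_mulVec, ← mulVec_mulVec, h2]

end spl

end Pool.Agent.Work.MP_787500_nt.OP
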