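import Mathlib
import Pool.Agent.Work.MP_787500_nt.OP.Base
import Pool.Agent.Work.MP_787500_nt.GP.L03_Ring

/-!
# Module OP/Crd (size M-L): coordinates adapted to a stable Lagrangian subspace

`T' = {x | ∀ j, ‖x j‖ ≤ 1}` (`stdL`), `b' = 1`. `B x y = bil β x y - bil β y x = bil Sm x (J y)` (`h.alt`) is alternating
and perfect on `T`: `x ∈ T` iff `‖B x y‖ ≤ 1` for all `y ∈ T` (`h.lat.dual`, `h.jT`, `J J = 1`), and
`B (ρ g x) (ρ g y) = χ g B x y` (`alt_act`).
1. `OE E` is a principal ideal ring (`GP.isPID`) and `T` is finitely generated (bounded: contained in `c O ^ n`) and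
   torsion-free, so free; `Wp ∩ T` is a submodule whose quotient is torsion-free, so `T = (Wp ∩ T) ⊕ C`,
   `Wp ∩ T` free with a basis `e_1, ..., e_m`, which is also an `E`-basis of `Wp` (every `x ∈ Wp` has a multiple in `T`,
   `h.lat.opn`), `m = finrank E Wp`.
2. There are `f_1, ..., f_m ∈ T` with `B (e_j) (f_k) = δ_jk`: the `O`-linear functional on `T` that is the `k`-th
   coordinate on `Wp ∩ T` and 0 on `C` extends to an `E`-linear functional of `E ^ n`, which is `x ↦ B x f` for one `f`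
   (`B` is nondegenerate), and `f ∈ T` since `B` is perfect on `T` (`‖B x f‖ ≤ 1` for `x ∈ T`).
3. `i x = ∑ j, x j • e j`, `s y = ∑ j, y j • f j`, `p x = (B (e j) x)_j`; `p (i x) = 0` (`hiso`), `p (s y) = y`, and
   `ker p = Wp` (dimensions: `p` is surjective, `2 finrank Wp = n`). So `x - s (p x) ∈ Wp = range i`, and `r x` is the
   coordinate vector of `x - s (p x)`, linear (`i` is injective).
   `mem`: if `x ∈ T`, then `p x ∈ T'` (`B` is integral on `T`), `x - s (p x) ∈ T ∩ Wp`, so `r x ∈ T'`; the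
   converse is clear. `pair`: `B (i x) y = ∑ j, x j * B (e j) y`, `bil 1 x y = ∑ j, x j * y j`.
4. `ρp g`, `ρm g`: the matrices (`LinearMap.toMatrix'`) of `x ↦ r (ρ g (i x))` and of `y ↦ p (ρ g (s y))`. `actp`: `Wp` is
   stable. `actm`: `p (ρ g x) = p (ρ g (s (p x)))` since `ρ g (i _) ∈ Wp`.
5. `lat`: `Lat 1 l t T'` from `h.lat` (`lne`, `llt`, `lmax`, `tint`, `tdual`, `trep` do not involve the lattice), `dual`:
   take `y = Pi.single j 1`, and the ultrametric inequality (`Gn.ultra 2 E`). `rep`: `st`, `sm` from `h.rep` and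
   the boundedness of `i, s, r, p` (`lin_bdd`); `dual`: `bil 1 (ρm g x) (ρp g y)`, write `y` as `i y`, `x` as `p (s x)`:
   `hS.pair` and `alt_act`, `bil 1` is symmetric.
(2 and 3 are the main points; the file may be split.)
-/

set_option autoImplicit false
set_option linter.unusedSectionVars false

namespace Pool.Agent.Work.MP_787500_nt.OP

open Matrix
open Pool.Agent.Work.MP_787500_nt.GP (A0 IsAct d0 d1 d2 tw cup11 cup21 cup12 cup01 cup02 EvPow IsPow OE MN
  actN actQ bN bil mq lft mq_lft mq_eq mq_add mq_smul Wq Lat pr0 lamN mem_OE bil_add_left bil_add_right bil_sub_left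
  bil_sub_right bil_smul_left bil_smul_right pr0_zero_of_norm actQ_mq)
open Pool.Agent.Work.MP_787500_nt.KR (FSys Sm1 Sm2 IsChar Smooth Z1 Z2 B2 LocH LocD Pair LDual LocRep ZV PerpV zV)
open Pool.Agent.Work.MP_787500_nt.QS (QM Lag pB Zq)
open Pool.Agent.Work.MP_787500_nt.QV (QRep LagV beN laN lamE)
open Pool.Agent.Work.MP_787500_nt.PA (toE)

universe v

variable {E : Type v} [NormedField E] [NormedAlgebra ℚ_[2] E] [FiniteDimensional ℚ_[2] E] {n m : ℕ}
  {P : Type*} [Group P] {TP : FSys P} {χ : P → ℤ_[2]} {iv : (P → P → A0) → A0} {l : OE E}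
  {t : E →ₗ[ℚ_[2]] ℚ_[2]} {T : Submodule (OE E) (Fin n → E)} {β Sm J : Matrix (Fin n) (Fin n) E}
  {ρ : P → Matrix (Fin n) (Fin n) E} {i s : (Fin m → E) →ₗ[E] (Fin n → E)}
  {r p : (Fin n → E) →ₗ[E] (Fin m → E)} {T' : Submodule (OE E) (Fin m → E)}
  {b' : Matrix (Fin m) (Fin m) E} {ρp ρm : P → Matrix (Fin m) (Fin m) E}

/-- the standard lattice -/
def stdL (E : Type*) [NormedField E] [NormedAlgebra ℚ_[2] E] (m : ℕ) :
    Submodule (OE E) (Fin m → E) where
  carrier := {x | ∀ j, ‖x j‖ ≤ 1}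
  add_mem' := fun {x y} hx hy j => by
    have := Gn.ultra 2 E
    exact (IsUltrametricDist.norm_add_le_max _ _).trans (max_le (hx j) (hy j))
  zero_mem' := fun j => by simp
  smul_mem' := fun a x hx j => by
    show ‖(a : E) * x j‖ ≤ 1
    rw [norm_mul]
    exact mul_le_one₀ a.2 (norm_nonneg _) (hx j)

theorem mem_stdL {x : Fin m → E} : x ∈ stdL E m ↔ ∀ j, ‖x j‖ ≤ 1 := Iff.rfl

/-- the alternating form -/
private def alF (β : Matrix (Fin n) (Fin n) E) :
    (Fin n → E) →ₗ[E] (Fin n → E) →ₗ[E] E :=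
  LinearMap.mk₂ E (fun x y => bil β x y - bil β y x)
    (fun x y z => by rw [bil_add_left, bil_add_right]; ring)
    (fun a x y => by rw [bil_smul_left, bil_smul_right, smul_eq_mul]; ring)
    (fun x y z => by rw [bil_add_left, bil_add_right]; ring)
    (fun a x y => by rw [bil_smul_left, bil_smul_right, smul_eq_mul]; ring)

private theorem alF_apply (β : Matrix (Fin n) (Fin n) E) (x y : Fin n → E) :
    alF β x y = bil β x y - bil β y x := rfl

private theorem crd_pow (hllt : ‖(l : E)‖ < 1) (C ε : ℝ) (hε : 0 < ε) :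
    ∃ k : ℕ, ‖(l : E)‖ ^ k * C < ε := by
  have h1 : Filter.Tendsto (fun k : ℕ => ‖(l : E)‖ ^ k * C) Filter.atTop (nhds (0 * C)) :=
    (tendsto_pow_atTop_nhds_zero_of_lt_one (norm_nonneg _) hllt).mul_const C
  rw [zero_mul] at h1
  exact (h1.eventually (gt_mem_nhds hε)).exists

private theorem crd_frac (hlne : (l : E) ≠ 0) (hllt : ‖(l : E)‖ < 1) :
    IsFractionRing (OE E) E := by
  refine IsFractionRing.of_field (R := OE E) (K := E) fun z => ?_
  obtain ⟨k, hk⟩ := crd_pow hllt ‖z‖ 1 one_pos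
  refine ⟨⟨(l : E) ^ k * z, ?_⟩, l ^ k, ?_⟩
  · rw [mem_OE, norm_mul, norm_pow]
    exact hk.le
  · show z = ((l : E) ^ k * z) / (((l ^ k : OE E)) : E)
    rw [Subring.coe_pow, mul_div_cancel_left₀ _ (pow_ne_zero _ hlne)]

private theorem crd_scale (hllt : ‖(l : E)‖ < 1)
    (hopn : ∃ r : ℝ, 0 < r ∧ ∀ x : Fin n → E, ‖x‖ < r → x ∈ T) (x : Fin n → E) :
    ∃ k : ℕ, (l : E) ^ k • x ∈ T := by
  obtain ⟨r, hr, hT⟩ := hopn
  obtain ⟨k, hk⟩ := crd_pow hllt ‖x‖ r hr
  refine ⟨k, hT _ ?_⟩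
  rw [norm_smul, norm_pow]
  exact hk

private theorem crd_basis (hlne : (l : E) ≠ 0) (hllt : ‖(l : E)‖ < 1)
    (hlmax : ∀ x : E, ‖x‖ < 1 → ‖x‖ ≤ ‖(l : E)‖) (hbdd : ∃ R : ℝ, ∀ x ∈ T, ‖x‖ ≤ R) :
    ∃ k : ℕ, Nonempty (Module.Basis (Fin k) (OE E) T) := by
  have hpid : IsPrincipalIdealRing (OE E) := GP.isPID hlne hllt hlmax
  obtain ⟨R, hR⟩ := hbdd
  obtain ⟨k, hk⟩ := crd_pow hllt R 1 one_pos
  let Φ : T →ₗ[OE E] (Fin n → OE E) :=
    { toFun := fun x i => ⟨(l : E) ^ k * x.1 i, by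
        rw [mem_OE, norm_mul, norm_pow]
        exact (mul_le_mul_of_nonneg_left ((norm_le_pi_norm x.1 i).trans (hR _ x.2))
          (by positivity)).trans hk.le⟩
      map_add' := fun x y => by
        funext i
        apply Subtype.ext
        exact mul_add _ _ _
      map_smul' := fun a x => by
        funext i
        apply Subtype.ext
        show (l : E) ^ k * ((a : E) * x.1 i) = (a : E) * ((l : E) ^ k * x.1 i)
        ring }
  have hΦ : Function.Injective Φ := by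
    intro x y hxy
    apply Subtype.ext
    funext i
    have h1 : (l : E) ^ k * x.1 i = (l : E) ^ k * y.1 i := congrArg Subtype.val (congrFun hxy i)
    exact mul_left_cancel₀ (pow_ne_zero _ hlne) h1
  obtain ⟨m, ⟨β⟩⟩ := Submodule.nonempty_basis_of_pid (Pi.basisFun (OE E) (Fin n))
    (LinearMap.range Φ)
  exact ⟨m, ⟨β.map (LinearEquiv.ofInjective Φ hΦ).symm⟩⟩

/-- the adapted vectors -/
private theorem crd_core (hlne : (l : E) ≠ 0) (hllt : ‖(l : E)‖ < 1)
    (hlmax : ∀ x : E, ‖x‖ < 1 → ‖x‖ ≤ ‖(l : E)‖)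
    (B : (Fin n → E) →ₗ[E] (Fin n → E) →ₗ[E] E) (hB : ∀ x y, B x y = - B y x)
    (hbdd : ∃ R : ℝ, ∀ x ∈ T, ‖x‖ ≤ R)
    (hopn : ∃ r : ℝ, 0 < r ∧ ∀ x : Fin n → E, ‖x‖ < r → x ∈ T)
    (hT : ∀ x, x ∈ T ↔ ∀ y ∈ T, ‖B x y‖ ≤ 1) (Wp : Submodule E (Fin n → E)) :
    ∃ (m : ℕ) (e f : Fin m → Fin n → E), (∀ j, e j ∈ Wp) ∧ (∀ j, e j ∈ T) ∧ (∀ j, f j ∈ T) ∧
      (∀ j k, B (e j) (f k) = if j = k then 1 else 0) ∧
      ∀ x ∈ Wp, ∃ c : Fin m → E, x = ∑ j, c j • e j := by
  have hpid : IsPrincipalIdealRing (OE E) := GP.isPID hlne hllt hlmax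
  have hfrac := crd_frac hlne hllt
  obtain ⟨k, ⟨b0⟩⟩ := crd_basis (T := T) hlne hllt hlmax hbdd
  let N : Submodule (OE E) T := (Wp.restrictScalars (OE E)).comap T.subtype
  have hN : ∀ x : T, x ∈ N ↔ (x : Fin n → E) ∈ Wp := fun x => Iff.rfl
  obtain ⟨m, ⟨bM, bN, f, a, snf⟩⟩ := Submodule.smithNormalForm b0 N
  have hli : LinearIndependent E (fun i => (bM i : Fin n → E)) := by
    rw [← LinearIndependent.iff_fractionRing (R := OE E)]
    exact bM.linearIndependent.map' T.subtype (Submodule.ker_subtype _)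
  have hxs : ∀ x : T, (x : Fin n → E) =
      ∑ i, ((bM.repr x i : OE E) : E) • (bM i : Fin n → E) := by
    intro x
    have h1 := congrArg Subtype.val (bM.sum_repr x)
    rw [Submodule.coe_sum] at h1
    exact h1.symm
  have hsp : ⊤ ≤ Submodule.span E (Set.range fun i => (bM i : Fin n → E)) := by
    rintro x -
    obtain ⟨j, hj⟩ := crd_scale (T := T) hllt hopn x
    have h1 := hxs ⟨_, hj⟩
    have h2 : x = ((l : E) ^ j)⁻¹ •
        ∑ i, ((bM.repr ⟨_, hj⟩ i : OE E) : E) • (bM i : Fin n → E) := by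
      rw [← h1, smul_smul, inv_mul_cancel₀ (pow_ne_zero _ hlne), one_smul]
    rw [h2]
    exact Submodule.smul_mem _ _ (Submodule.sum_mem _ fun i _ =>
      Submodule.smul_mem _ _ (Submodule.subset_span ⟨i, rfl⟩))
  let bE : Module.Basis (Fin k) E (Fin n → E) := Module.Basis.mk hli hsp
  have hbE : ∀ i, bE i = (bM i : Fin n → E) := fun i => Module.Basis.mk_apply hli hsp i
  have hco : ∀ x ∈ T, ∀ i, ‖bE.repr x i‖ ≤ 1 := by
    intro x hx i
    have h1 : x = ∑ i, ((bM.repr ⟨x, hx⟩ i : OE E) : E) • bE i := by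
      simp only [hbE]
      exact hxs ⟨x, hx⟩
    have h2 : bE.repr x = Finsupp.equivFunOnFinite.symm
        (fun i => ((bM.repr ⟨x, hx⟩ i : OE E) : E)) := by
      conv_lhs => rw [h1]
      ext i
      rw [map_sum, Finsupp.finsetSum_apply]
      simp [Module.Basis.repr_self, Finsupp.single_apply]
    rw [h2]
    exact (bM.repr ⟨x, hx⟩ i).2
  -- nondegeneracy
  let Ψ : (Fin n → E) →ₗ[E] Module.Dual E (Fin n → E) := B.flip
  have hΨi : Function.Injective Ψ := by
    rw [injective_iff_map_eq_zero]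
    intro y hy
    have h1 : ∀ x, B x y = 0 := fun x => LinearMap.congr_fun hy x
    obtain ⟨R, hR⟩ := hbdd
    have h2 : ∀ c : E, c • y ∈ T := by
      intro c
      rw [hT]
      intro x _
      rw [map_smul, LinearMap.smul_apply, hB, h1, neg_zero, smul_zero, norm_zero]
      exact zero_le_one
    by_contra hne
    obtain ⟨j, hj⟩ := crd_pow (l := l) hllt (R + 1) ‖y‖ (norm_pos_iff.2 hne)
    have h3 := hR _ (h2 ((l : E) ^ j)⁻¹)
    rw [norm_smul, norm_inv, norm_pow] at h3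
    have h4 : 0 < ‖(l : E)‖ ^ j := pow_pos (norm_pos_iff.2 hlne) j
    rw [inv_mul_le_iff₀ h4] at h3
    nlinarith
  have hΨs : Function.Surjective Ψ :=
    (LinearMap.injective_iff_surjective_of_finrank_eq_finrank
      (Subspace.dual_finrank_eq).symm).1 hΨi
  choose F hF using fun i => hΨs (bE.coord i)
  have hF' : ∀ i x, B x (F i) = bE.repr x i := fun i x => LinearMap.congr_fun (hF i) x
  have ha : ∀ j, a j ≠ 0 := by
    intro j h0
    have h1 := snf j
    rw [h0, zero_smul] at h1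
    exact bN.ne_zero j (Subtype.ext h1)
  have ha' : ∀ j, (a j : E) ≠ 0 := fun j h0 => ha j (Subtype.ext h0)
  have heN : ∀ j, (bM (f j) : Fin n → E) ∈ Wp := by
    intro j
    have h1 : ((bN j : T) : Fin n → E) ∈ Wp := (bN j).2
    rw [snf j] at h1
    have h2 : (bM (f j) : Fin n → E) = (a j : E)⁻¹ • ((a j • bM (f j) : T) : Fin n → E) := by
      show _ = (a j : E)⁻¹ • (a j : E) • (bM (f j) : Fin n → E)
      rw [smul_smul, inv_mul_cancel₀ (ha' j), one_smul]
    rw [h2]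
    exact Wp.smul_mem _ h1
  refine ⟨m, fun j => (bM (f j) : Fin n → E), fun j => F (f j), heN, fun j => (bM (f j)).2,
    fun j => ?_, fun j k => ?_, fun x hx => ?_⟩
  · rw [hT]
    intro y hy
    rw [hB, norm_neg, hF']
    exact hco y hy _
  · rw [hF']
    show bE.repr (bM (f j) : Fin n → E) (f k) = _
    rw [← hbE, Module.Basis.repr_self, Finsupp.single_apply]
    simp only [f.injective.eq_iff]
  · obtain ⟨j, hj⟩ := crd_scale (T := T) hllt hopn x
    have hmem : (⟨_, hj⟩ : T) ∈ N := Wp.smul_mem _ hx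
    have h1 := congrArg (fun z : N => ((z : T) : Fin n → E)) (bN.sum_repr ⟨⟨_, hj⟩, hmem⟩)
    simp only [Submodule.coe_sum] at h1
    refine ⟨fun i => ((l : E) ^ j)⁻¹ * (((bN.repr ⟨⟨_, hj⟩, hmem⟩ i : OE E) : E) * (a i : E)),
      ?_⟩
    have h2 : x = ((l : E) ^ j)⁻¹ • ((l : E) ^ j • x) := by
      rw [smul_smul, inv_mul_cancel₀ (pow_ne_zero _ hlne), one_smul]
    conv_lhs => rw [h2, ← h1]
    rw [Finset.smul_sum]
    refine Finset.sum_congr rfl fun i _ => ?_
    rw [mul_smul]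
    congr 1
    have h3 := congrArg Subtype.val (snf i)
    show ((bN.repr ⟨⟨_, hj⟩, hmem⟩ i : OE E) : E) • ((bN i : T) : Fin n → E) = _
    rw [h3, mul_smul]
    rfl

private theorem crd_sm {a : (Fin n → E) →ₗ[E] (Fin m → E)} {c : (Fin m → E) →ₗ[E] (Fin n → E)}
    {σ : P → Matrix (Fin m) (Fin m) E} (h1 : ∀ g x, σ g *ᵥ x = a (ρ g *ᵥ c x))
    (h2 : ∀ x, a (c x) = x)
    (hsm : ∀ ε : ℝ, 0 < ε → ∃ W, TP.mem W ∧ ∀ w ∈ W, ∀ x : Fin n → E,
      ‖ρ w *ᵥ x - x‖ ≤ ε * ‖x‖) :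
    ∀ ε : ℝ, 0 < ε → ∃ W, TP.mem W ∧ ∀ w ∈ W, ∀ x : Fin m → E,
      ‖σ w *ᵥ x - x‖ ≤ ε * ‖x‖ := by
  intro ε hε
  obtain ⟨C, hC, ha⟩ := lin_bdd a
  obtain ⟨C', hC', hc⟩ := lin_bdd c
  obtain ⟨W, hW, hw⟩ := hsm (ε / (C * C' + 1)) (by positivity)
  refine ⟨W, hW, fun w hw' x => ?_⟩
  have e : σ w *ᵥ x - x = a (ρ w *ᵥ c x - c x) := by
    rw [map_sub, h2, h1]
  rw [e]
  have h3 : 0 ≤ ε / (C * C' + 1) := by positivity
  calc ‖a (ρ w *ᵥ c x - c x)‖ ≤ C * ‖ρ w *ᵥ c x - c x‖ := ha _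
    _ ≤ C * (ε / (C * C' + 1) * ‖c x‖) := mul_le_mul_of_nonneg_left (hw w hw' _) hC
    _ ≤ C * (ε / (C * C' + 1) * (C' * ‖x‖)) :=
        mul_le_mul_of_nonneg_left (mul_le_mul_of_nonneg_left (hc x) h3) hC
    _ = (C * C') * (ε / (C * C' + 1)) * ‖x‖ := by ring
    _ ≤ ε * ‖x‖ := by
        refine mul_le_mul_of_nonneg_right ?_ (norm_nonneg _)
        rw [mul_div_assoc', div_le_iff₀ (by positivity)]
        nlinarith [mul_nonneg hC hC']

private theorem crd_lat {b : Matrix (Fin n) (Fin n) E} (h : Lat b l t T) :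
    Lat (1 : Matrix (Fin m) (Fin m) E) l t (stdL E m) where
  lne := h.lne
  llt := h.llt
  lmax := h.lmax
  tint := h.tint
  tdual := h.tdual
  trep := h.trep
  symm := Matrix.transpose_one
  dual x := by
    have hu := Gn.ultra 2 E
    constructor
    · intro hx y hy
      rw [bil, one_mulVec]
      refine IsUltrametricDist.norm_sum_le_of_forall_le_of_nonneg zero_le_one fun j _ => ?_
      rw [norm_mul]
      exact mul_le_one₀ (hx j) (norm_nonneg _) (hy j)
    · intro hx j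
      have h1 := hx (Pi.single j 1) (fun k => by
        by_cases hk : k = j
        · subst hk
          rw [Pi.single_eq_same, norm_one]
        · rw [Pi.single_eq_of_ne hk, norm_zero]
          exact zero_le_one)
      rw [bil, one_mulVec, dotProduct_single, mul_one] at h1
      exact h1
  bdd := ⟨1, fun x hx => (pi_norm_le_iff_of_nonneg zero_le_one).2 hx⟩
  opn := ⟨1, one_pos, fun x hx j => (norm_le_pi_norm x j).trans hx.le⟩

theorem exists_spl (h : QRep TP χ l t T β Sm J ρ) (Wp : Submodule E (Fin n → E))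
    (hst : ∀ g, ∀ x ∈ Wp, ρ g *ᵥ x ∈ Wp) (hiso : ∀ x ∈ Wp, ∀ y ∈ Wp, bil β x y = 0)
    (hdim : 2 * Module.finrank E Wp = n) :
    ∃ (m : ℕ) (i s : (Fin m → E) →ₗ[E] (Fin n → E)) (r p : (Fin n → E) →ₗ[E] (Fin m → E))
      (ρp ρm : P → Matrix (Fin m) (Fin m) E), Spl TP χ l t T β ρ i s r p (stdL E m) 1 ρp ρm ∧
      LinearMap.range i = Wp ∧ LinearMap.ker p = Wp := by
  have hu := Gn.ultra 2 E
  have hB : ∀ x y, alF β x y = - alF β y x := by
    intro x y
    rw [alF_apply, alF_apply]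
    ring
  have hBT : ∀ x, x ∈ T ↔ ∀ y ∈ T, ‖alF β x y‖ ≤ 1 := by
    intro x
    rw [h.lat.dual]
    constructor
    · intro h1 y hy
      rw [alF_apply, h.alt]
      exact h1 _ (h.jT y hy)
    · intro h1 y hy
      have h2 := h1 _ (h.jT y hy)
      rw [alF_apply, h.alt, mulVec_mulVec, h.jj, one_mulVec] at h2
      exact h2
  obtain ⟨m, e, f, heW, heT, hfT, hef, hsp⟩ := crd_core h.lat.lne h.lat.llt h.lat.lmax (alF β) hB
    h.lat.bdd h.lat.opn hBT Wp
  have hWW : ∀ x ∈ Wp, ∀ y ∈ Wp, alF β x y = 0 := by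
    intro x hx y hy
    rw [alF_apply, hiso x hx y hy, hiso y hy x hx, sub_zero]
  let i : (Fin m → E) →ₗ[E] (Fin n → E) := Fintype.linearCombination E e
  let s : (Fin m → E) →ₗ[E] (Fin n → E) := Fintype.linearCombination E f
  let p : (Fin n → E) →ₗ[E] (Fin m → E) := LinearMap.pi fun j => alF β (e j)
  let q : (Fin n → E) →ₗ[E] (Fin m → E) := LinearMap.pi fun j => (alF β).flip (f j)
  let r : (Fin n → E) →ₗ[E] (Fin m → E) := q ∘ₗ (LinearMap.id - s ∘ₗ p)
  have hi : ∀ x, i x = ∑ j, x j • e j := fun x => rfl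
  have hs : ∀ x, s x = ∑ j, x j • f j := fun x => rfl
  have hp : ∀ x j, p x j = alF β (e j) x := fun x j => rfl
  have hq : ∀ x j, q x j = alF β x (f j) := fun x j => rfl
  have hr : ∀ x, r x = q (x - s (p x)) := fun x => rfl
  have hiW : ∀ x, i x ∈ Wp := fun x => by
    rw [hi]
    exact Wp.sum_mem fun j _ => Wp.smul_mem _ (heW j)
  have hpW : ∀ x ∈ Wp, p x = 0 := fun x hx => funext fun j => hWW _ (heW j) _ hx
  have hpi : ∀ x, p (i x) = 0 := fun x => hpW _ (hiW x)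
  have hps : ∀ x, p (s x) = x := by
    intro x
    funext j
    rw [hp, hs, map_sum]
    simp only [map_smul, hef, smul_eq_mul, mul_ite, mul_one, mul_zero, Finset.sum_ite_eq,
      Finset.mem_univ, if_true]
  have hqi : ∀ x, q (i x) = x := by
    intro x
    funext j
    rw [hq, hi, map_sum, LinearMap.sum_apply]
    simp only [map_smul, LinearMap.smul_apply, hef, smul_eq_mul, mul_ite, mul_one, mul_zero,
      Finset.sum_ite_eq', Finset.mem_univ, if_true]
  have hri : ∀ x, r (i x) = x := fun x => by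
    rw [hr, hpi, map_zero, sub_zero, hqi]
  have hrs : ∀ x, r (s x) = 0 := fun x => by
    rw [hr, hps, sub_self, map_zero]
  have hrange : LinearMap.range i = Wp := by
    apply le_antisymm
    · rintro _ ⟨x, rfl⟩
      exact hiW x
    · intro x hx
      obtain ⟨c, hc⟩ := hsp x hx
      exact ⟨c, by rw [hi, hc]⟩
  have hinj : Function.Injective i := Function.LeftInverse.injective (g := r) hri
  have hfin : Module.finrank E Wp = m := by
    rw [← hrange, LinearMap.finrank_range_of_inj hinj, Module.finrank_fin_fun]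
  have hker : LinearMap.ker p = Wp := by
    symm
    apply Submodule.eq_of_le_of_finrank_eq
    · intro x hx
      exact hpW x hx
    · have h1 := LinearMap.finrank_range_add_finrank_ker p
      have h2 : LinearMap.range p = ⊤ := LinearMap.range_eq_top.2 fun x => ⟨s x, hps x⟩
      rw [h2, finrank_top, Module.finrank_fin_fun, Module.finrank_fin_fun] at h1
      omega
  have hiq : ∀ w ∈ Wp, i (q w) = w := by
    intro w hw
    rw [← hrange] at hw
    obtain ⟨c, rfl⟩ := hw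
    rw [hqi]
  have hdec : ∀ x, i (r x) + s (p x) = x := by
    intro x
    have h1 : x - s (p x) ∈ Wp := by
      rw [← hker, LinearMap.mem_ker, map_sub, hps, sub_self]
    rw [hr, hiq _ h1, sub_add_cancel]
  have hBint : ∀ x ∈ T, ∀ y ∈ T, ‖alF β x y‖ ≤ 1 := fun x hx => (hBT x).1 hx
  have hiT : ∀ x ∈ stdL E m, i x ∈ T := by
    intro x hx
    rw [hi]
    exact T.sum_mem fun j _ => T.smul_mem (⟨x j, hx j⟩ : OE E) (heT j)
  have hsT : ∀ x ∈ stdL E m, s x ∈ T := by
    intro x hx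
    rw [hs]
    exact T.sum_mem fun j _ => T.smul_mem (⟨x j, hx j⟩ : OE E) (hfT j)
  have hpT : ∀ x ∈ T, p x ∈ stdL E m := fun x hx j => hBint _ (heT j) _ hx
  have hqT : ∀ x ∈ T, q x ∈ stdL E m := fun x hx j => hBint _ hx _ (hfT j)
  have hrT : ∀ x ∈ T, r x ∈ stdL E m := fun x hx =>
    hqT _ (T.sub_mem hx (hsT _ (hpT x hx)))
  let ρp : P → Matrix (Fin m) (Fin m) E := fun g =>
    LinearMap.toMatrix' (r ∘ₗ Matrix.toLin' (ρ g) ∘ₗ i)
  let ρm : P → Matrix (Fin m) (Fin m) E := fun g =>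
    LinearMap.toMatrix' (p ∘ₗ Matrix.toLin' (ρ g) ∘ₗ s)
  have hρp : ∀ g x, ρp g *ᵥ x = r (ρ g *ᵥ i x) := fun g x => by
    show LinearMap.toMatrix' (r ∘ₗ Matrix.toLin' (ρ g) ∘ₗ i) *ᵥ x = _
    rw [← Matrix.toLin'_apply, Matrix.toLin'_toMatrix']
    rfl
  have hρm : ∀ g x, ρm g *ᵥ x = p (ρ g *ᵥ s x) := fun g x => by
    show LinearMap.toMatrix' (p ∘ₗ Matrix.toLin' (ρ g) ∘ₗ s) *ᵥ x = _
    rw [← Matrix.toLin'_apply, Matrix.toLin'_toMatrix']
    rfl
  have hactp : ∀ g x, ρ g *ᵥ i x = i (ρp g *ᵥ x) := by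
    intro g x
    rw [hρp]
    conv_lhs => rw [← hdec (ρ g *ᵥ i x)]
    rw [hpW _ (hst g _ (hiW x)), map_zero, add_zero]
  have hactm : ∀ g x, p (ρ g *ᵥ x) = ρm g *ᵥ p x := by
    intro g x
    rw [hρm]
    conv_lhs => rw [← hdec x]
    rw [mulVec_add, map_add, hpW _ (hst g _ (hiW _)), zero_add]
  have hpair : ∀ x y, bil β (i x) y - bil β y (i x) =
      bil (1 : Matrix (Fin m) (Fin m) E) x (p y) := by
    intro x y
    rw [← alF_apply, hi, map_sum, LinearMap.sum_apply, bil, one_mulVec]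
    refine Finset.sum_congr rfl fun j _ => ?_
    rw [map_smul, LinearMap.smul_apply, smul_eq_mul, hp]
  have hone : ∀ (A : Matrix (Fin m) (Fin m) E), (∀ x, A *ᵥ x = x) → A = 1 := by
    intro A hA
    apply Matrix.toLin'.injective
    ext1 j
    apply LinearMap.ext
    intro c
    show A *ᵥ _ = (1 : Matrix (Fin m) (Fin m) E) *ᵥ _
    rw [hA, one_mulVec]
  have hmul : ∀ (A B : Matrix (Fin m) (Fin m) E), (∀ x, A *ᵥ x = B *ᵥ x) → A = B := by
    intro A B hA
    apply Matrix.toLin'.injective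
    apply LinearMap.ext
    intro x
    exact hA x
  have hrep : LocRep TP χ (stdL E m) (1 : Matrix (Fin m) (Fin m) E) ρm ρp :=
    { one := hone _ fun x => by rw [hρm, h.rep.one, one_mulVec, hps]
      mul := fun g u => hmul _ _ fun x => by
        rw [hρm, h.rep.mul, ← mulVec_mulVec, hactm, ← hρm, mulVec_mulVec]
      one' := hone _ fun x => by rw [hρp, h.rep.one, one_mulVec, hri]
      mul' := fun g u => hmul _ _ fun x => by
        rw [hρp, h.rep.mul, ← mulVec_mulVec, hactp, ← hρp, mulVec_mulVec]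
      st := fun g x hx => by
        rw [hρm]
        exact hpT _ (h.rep.st g _ (hsT x hx))
      st' := fun g x hx => by
        rw [hρp]
        exact hrT _ (h.rep.st g _ (hiT x hx))
      sm := crd_sm hρm hps h.rep.sm
      sm' := crd_sm hρp hri h.rep.sm
      dual := fun g x y => by
        rw [GP.bil_symm (Matrix.transpose_one), GP.bil_symm (Matrix.transpose_one) x y]
        have h1 : ρm g *ᵥ x = p (ρ g *ᵥ s x) := hρm g x
        rw [h1, ← hpair, ← hactp, alt_act h, hpair, hps] }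
  refine ⟨m, i, s, r, p, ρp, ρm, ⟨hpi, hps, hri, hrs, hdec, fun x => ⟨fun hx => ⟨hrT x hx,
    hpT x hx⟩, fun hx => ?_⟩, hactp, hactm, fun x y => hiso _ (hiW x) _ (hiW y), hpair,
    crd_lat h.lat, hrep⟩, hrange, hker⟩
  rw [← hdec x]
  exact T.add_mem (hiT _ hx.1) (hsT _ hx.2)

end Pool.Agent.Work.MP_787500_nt.OP
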