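import Mathlib
import Pool.Agent.Work.MP_787500_nt.OP.Defs

/-!
# Module OP/Alg (size S-M): the radical of an alternating form

`q` the number of elements of the residue field. `N` is the radical of `β`, `N' = {x | l • x ∈ N}` the radical of the
form `(x, y) ↦ β (l • x) y`, which is also balanced and alternating. `GP.alt_card` for both:
`card X = q ^ (2 m) * card N = q ^ (2 m') * card N'`. Multiplication by `l` maps `N'` onto
`N₁ = N ⊓ range (lsmul l)` with kernel `X[l] = {x | l • x = 0}`: `card N' = card X[l] * card N₁`, and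
`card N = card N₁ * card (N ⧸ N₁)` (`N₁` as the submodule `(range).comap N.subtype` of `N`). All these numbers are
powers of `q` (`GP.card_pow`, GP/F03_Pow.lean). `q ^ (2 m + 2 m') * card N * card N' = (card X) ^ 2`, so
`(card (N ⧸ N₁) * card X[l]) * (card N₁) ^ 2 * q ^ (2 m + 2 m') = (card X) ^ 2`; conclude by comparing
exponents (`2 ≤ q`, `GP.q_two_le`; or `GP.evPow_cancel`, `GP.evPow_sq`).
-/

set_option autoImplicit false
set_option linter.unusedSectionVars false

namespace Pool.Agent.Work.MP_787500_nt.OP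

open Matrix
open Pool.Agent.Work.MP_787500_nt.GP (A0 IsAct d0 d1 d2 tw cup11 cup21 cup12 cup01 cup02 EvPow IsPow OE MN
  actN actQ bN bil mq lft mq_lft mq_eq mq_add mq_smul Wq Lat pr0 lamN mem_OE bil_add_left bil_add_right bil_sub_left
  bil_sub_right bil_smul_left bil_smul_right pr0_zero_of_norm actQ_mq)
open Pool.Agent.Work.MP_787500_nt.KR (FSys Sm1 Sm2 IsChar Smooth Z1 Z2 B2 LocH LocD Pair LDual LocRep ZV PerpV zV)
open Pool.Agent.Work.MP_787500_nt.QS (QM Lag pB Zq)
open Pool.Agent.Work.MP_787500_nt.QV (QRep LagV beN laN lamE)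
open Pool.Agent.Work.MP_787500_nt.PA (toE)

universe v

variable {O : Type*} [CommRing O] [IsLocalRing O] [Finite (IsLocalRing.ResidueField O)]

theorem rad_even {X : Type*} [AddCommGroup X] [Module O X] [Finite X] (B : X →+ X →+ A0)
    (hbal : ∀ (a : O) x y, B (a • x) y = B x (a • y)) (halt : ∀ (a : O) x, B (a • x) x = 0)
    (N : Submodule O X) (hN : ∀ x, x ∈ N ↔ ∀ y, B x y = 0) (l : O) :
    EvPow (Nat.card (IsLocalRing.ResidueField O))
      (Nat.card (↥N ⧸ (LinearMap.range (LinearMap.lsmul O X l)).comap N.subtype) *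
        Nat.card {x : X // l • x = 0}) := by
  set q := Nat.card (IsLocalRing.ResidueField O) with hq
  have hq2 : 2 ≤ q := GP.q_two_le (O := O)
  obtain ⟨k1, h1⟩ := GP.alt_card B hbal halt N hN
  let L : X →ₗ[O] X := LinearMap.lsmul O X l
  let B' : X →+ X →+ A0 := B.comp L.toAddMonoidHom
  have hB' : ∀ x y, B' x y = B (l • x) y := fun _ _ => rfl
  obtain ⟨k2, h2⟩ := GP.alt_card B' (fun a x y => by
      rw [hB', hB', ← hbal, smul_comm])
    (fun a x => by rw [hB', smul_smul]; exact halt _ x) (N.comap L) (fun x => by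
      rw [Submodule.mem_comap]
      exact hN (l • x))
  rw [← hq] at h1 h2
  -- multiplication by `l` from `N'` to `N`
  let φ : ↥(N.comap L) →ₗ[O] ↥N := (L.comp (N.comap L).subtype).codRestrict N (fun x => x.2)
  have hφ : ∀ x, ((φ x : ↥N) : X) = l • (x : X) := fun _ => rfl
  have hrange : LinearMap.range φ = (LinearMap.range (LinearMap.lsmul O X l)).comap N.subtype := by
    ext y
    constructor
    · rintro ⟨x, rfl⟩
      exact ⟨(x : X), rfl⟩
    · rintro ⟨x, hx⟩
      have hx' : l • x = (y : X) := hx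
      refine ⟨⟨x, ?_⟩, Subtype.ext hx'⟩
      rw [Submodule.mem_comap]
      show l • x ∈ N
      rw [hx']
      exact y.2
  have hker : Nat.card ↥(LinearMap.ker φ) = Nat.card {x : X // l • x = 0} := by
    refine Nat.card_congr ⟨fun x => ⟨((x : ↥(N.comap L)) : X), ?_⟩, fun x => ⟨⟨x.1, ?_⟩, ?_⟩, fun x => rfl,
      fun x => rfl⟩
    · have h3 := LinearMap.mem_ker.1 x.2
      have h4 := congrArg Subtype.val h3
      exact h4
    · rw [Submodule.mem_comap]
      show l • x.1 ∈ N
      rw [x.2]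
      exact N.zero_mem
    · rw [LinearMap.mem_ker]
      exact Subtype.ext x.2
  have h3 : Nat.card ↥(N.comap L) = Nat.card ↥(LinearMap.ker φ) * Nat.card ↥(LinearMap.range φ) := by
    have e1 := Submodule.card_eq_card_quotient_mul_card (LinearMap.ker φ)
    rw [e1]
    congr 1
    exact Nat.card_congr φ.quotKerEquivRange.toEquiv
  have h4 := Submodule.card_eq_card_quotient_mul_card
    ((LinearMap.range (LinearMap.lsmul O X l)).comap N.subtype)
  rw [hrange, hker] at h3
  set N1 := (LinearMap.range (LinearMap.lsmul O X l)).comap N.subtype with hN1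
  set a := Nat.card (↥N ⧸ N1) with ha
  set k := Nat.card {x : X // l • x = 0} with hk
  have hXp : GP.IsPow q (Nat.card X) := GP.card_pow X
  have hN1p : GP.IsPow q (Nat.card ↥N1) := GP.card_pow ↥N1
  have hfq : Finite (↥N ⧸ N1) := Finite.of_surjective _ (Submodule.mkQ_surjective N1)
  have hap : GP.IsPow q a := GP.card_pow (↥N ⧸ N1)
  have hkp : GP.IsPow q k := by
    rw [← hker]
    exact GP.card_pow ↥(LinearMap.ker φ)
  refine GP.evPow_cancel hq2 (GP.isPow_mul hap hkp)
    (b := q ^ (2 * (k1 + k2)) * Nat.card ↥N1 ^ 2) (GP.evPow_mul ⟨k1 + k2, rfl⟩ (GP.evPow_sq hN1p)) ?_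
  have h5 : a * k * (q ^ (2 * (k1 + k2)) * Nat.card ↥N1 ^ 2) = Nat.card X ^ 2 := by
    have e1 : Nat.card X ^ 2 = (q ^ (2 * k1) * Nat.card ↥N) * (q ^ (2 * k2) * Nat.card ↥(N.comap L)) := by
      rw [← h1, ← h2, pow_two]
    rw [e1, h3, h4, mul_add, pow_add]
    ring
  rw [h5]
  exact GP.evPow_sq hXp

end Pool.Agent.Work.MP_787500_nt.OP
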