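import Mathlib
import Pool.Agent.Work.MP_787500_nt.OP.Base
import Pool.Agent.Work.MP_787500_nt.GP.L08_MN

/-!
# Module OP/Fin (size M): the module `X` is finite

`exists_bd`: the fixed space `KE` is the kernel of the linear map `f w = (ρm g w - w)_{g ∈ F}` for a finite set `F ⊆ P`
(finite dimension: the kernels of `w ↦ ρm g w - w`, `g ∈ F`, for `F` finite; take `F` with the intersection of
minimal dimension). `f` induces an injective linear map on `E ^ m / KE`, so it has a linear left inverse there: there is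
a linear map `σ : (F → Fin m → E) → (Fin m → E)` with `w - σ (f w) ∈ KE` for all `w`
(`LinearMap.exists_leftInverse_of_injective`, or: `f` maps a complement of `KE` injectively). `σ` is bounded
(`E` is complete of finite dimension; or a matrix), `f w` is bounded for `w ∈ Ac` (`hL.bdd`), so `σ (f w)` is bounded,
and it is in `l ^ (-N) T'` for a large `N` independent of `w` (`hL.opn`, `hL.llt`).
`finite_XA`: every class of `XA` has a representative `w` with `l ^ N • w ∈ T'` (`KE ≤ Ac`, `KE ≤ Ko`; `xm_surj`). Choose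
one; the map to `MN T' l N`, class `↦ mq T' w`, is injective (`T' ≤ Ko`), and `MN T' l N` is finite
(`GP.MN_finite`, GP/L08_MN.lean).
-/

set_option autoImplicit false
set_option linter.unusedSectionVars false

namespace Pool.Agent.Work.MP_787500_nt.OP

open Matrix
open Pool.Agent.Work.MP_787500_nt.GP (A0 IsAct d0 d1 d2 tw cup11 cup21 cup12 cup01 cup02 EvPow IsPow OE MN
  actN actQ bN bil mq lft mq_lft mq_eq mq_add mq_smul Wq Lat pr0 lamN mem_OE bil_add_left bil_add_right bil_sub_left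
  bil_sub_right bil_smul_left bil_smul_right pr0_zero_of_norm actQ_mq)
open Pool.Agent.Work.MP_787500_nt.KR (FSys Sm1 Sm2 IsChar Smooth Z1 Z2 B2 LocH LocD Pair LDual LocRep ZV PerpV zV)
open Pool.Agent.Work.MP_787500_nt.QS (QM Lag pB Zq)
open Pool.Agent.Work.MP_787500_nt.QV (QRep LagV beN laN lamE)
open Pool.Agent.Work.MP_787500_nt.PA (toE)

universe v

variable {E : Type v} [NormedField E] [NormedAlgebra ℚ_[2] E] [FiniteDimensional ℚ_[2] E] {n m : ℕ}
  {P : Type*} [Group P] {TP : FSys P} {χ : P → ℤ_[2]} {iv : (P → P → A0) → A0} {l : OE E}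
  {t : E →ₗ[ℚ_[2]] ℚ_[2]} {T : Submodule (OE E) (Fin n → E)} {β Sm J : Matrix (Fin n) (Fin n) E}
  {ρ : P → Matrix (Fin n) (Fin n) E} {i s : (Fin m → E) →ₗ[E] (Fin n → E)}
  {r p : (Fin n → E) →ₗ[E] (Fin m → E)} {T' : Submodule (OE E) (Fin m → E)}
  {b' : Matrix (Fin m) (Fin m) E} {ρp ρm : P → Matrix (Fin m) (Fin m) E}

theorem exists_bd {b : Matrix (Fin m) (Fin m) E} (hL : Lat b l t T')
    (ρm : P → Matrix (Fin m) (Fin m) E) :
    ∃ N : ℕ, ∀ w ∈ Ac ρm T', ∃ k ∈ KE ρm, (l : E) ^ N • (w - k) ∈ T' := by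
  classical
  obtain ⟨F, hF⟩ := Finset.exists_inf_le
    (fun g : P => LinearMap.ker (Matrix.mulVecLin (ρm g) - (LinearMap.id : (Fin m → E) →ₗ[E] (Fin m → E))))
  let f : (Fin m → E) →ₗ[E] (F → Fin m → E) :=
    LinearMap.pi fun g => Matrix.mulVecLin (ρm g) - LinearMap.id
  have hf : ∀ w (g : F), f w g = ρm g *ᵥ w - w := fun w g => rfl
  have hker : LinearMap.ker f ≤ KE ρm := by
    intro w hw g
    have h1 : w ∈ F.inf (fun g : P => LinearMap.ker (Matrix.mulVecLin (ρm g) - (LinearMap.id : (Fin m → E) →ₗ[E] (Fin m → E)))) := by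
      rw [Submodule.mem_finsetInf]
      intro g hg
      rw [LinearMap.mem_ker]
      have h2 := congrFun (LinearMap.mem_ker.1 hw) ⟨g, hg⟩
      exact h2
    have h3 := LinearMap.mem_ker.1 (hF g h1)
    exact sub_eq_zero.1 h3
  have hker' : KE ρm ≤ LinearMap.ker f := by
    intro w hw
    rw [LinearMap.mem_ker]
    funext g
    rw [hf, hw g, sub_self]
    rfl
  have hinj : LinearMap.ker ((KE ρm).liftQ f hker') = ⊥ := by
    rw [Submodule.ker_liftQ_eq_bot _ _ _ hker]
  obtain ⟨σ', hσ'⟩ := LinearMap.exists_leftInverse_of_injective _ hinj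
  obtain ⟨s0, hs0⟩ := LinearMap.exists_rightInverse_of_surjective (KE ρm).mkQ
    (LinearMap.range_eq_top.2 (Submodule.mkQ_surjective _))
  let σ : (F → Fin m → E) →ₗ[E] (Fin m → E) := s0 ∘ₗ σ'
  have hσ : ∀ w, w - σ (f w) ∈ KE ρm := by
    intro w
    rw [← Submodule.Quotient.mk_eq_zero, ← Submodule.mkQ_apply, map_sub, sub_eq_zero]
    have h1 : (KE ρm).mkQ (σ (f w)) = σ' (f w) := by
      have := LinearMap.congr_fun hs0 (σ' (f w))
      exact this
    have h2 : σ' (f w) = (KE ρm).mkQ w := by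
      have := LinearMap.congr_fun hσ' ((KE ρm).mkQ w)
      exact this
    rw [h1, h2]
  let σQ : (F → Fin m → E) →L[ℚ_[2]] (Fin m → E) :=
    LinearMap.toContinuousLinearMap (σ.restrictScalars ℚ_[2])
  have hσQ : ∀ x, σQ x = σ x := fun x => rfl
  obtain ⟨R, hR⟩ := hL.bdd
  obtain ⟨r, hr, hopn⟩ := hL.opn
  set B : ℝ := ‖σQ‖ * max R 0 with hB
  have hB0 : 0 ≤ B := mul_nonneg (norm_nonneg _) (le_max_right _ _)
  obtain ⟨N, hN⟩ := exists_pow_lt_of_lt_one (show (0 : ℝ) < r / (B + 1) by positivity) hL.llt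
  refine ⟨N, fun w hw => ⟨w - σ (f w), hσ w, ?_⟩⟩
  rw [sub_sub_cancel]
  apply hopn
  have h1 : ‖f w‖ ≤ max R 0 := by
    refine (pi_norm_le_iff_of_nonneg (le_max_right _ _)).2 fun g => ?_
    exact (hR _ (hw g)).trans (le_max_left _ _)
  have h2 : ‖σ (f w)‖ ≤ B := by
    rw [← hσQ]
    exact (σQ.le_opNorm _).trans (mul_le_mul_of_nonneg_left h1 (norm_nonneg _))
  rw [norm_smul, norm_pow]
  rw [lt_div_iff₀ (by positivity)] at hN
  have h3 : (0 : ℝ) ≤ ‖(l : E)‖ ^ N := by positivity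
  nlinarith

theorem finite_XA {b : Matrix (Fin m) (Fin m) E} (hL : Lat b l t T')
    (hst : ∀ g, ∀ x ∈ T', ρm g *ᵥ x ∈ T') : Finite (XA ρm T') := by
  obtain ⟨N, hN⟩ := exists_bd hL ρm
  have hex : ∀ c : XA ρm T', ∃ w : ↥(Ac ρm T'), xm ρm T' w = c ∧
      (l : E) ^ N • (w : Fin m → E) ∈ T' := by
    intro c
    obtain ⟨w, rfl⟩ := xm_surj ρm T' c
    obtain ⟨k, hk, h1⟩ := hN w w.2
    have hk2 : k ∈ Ac ρm T' := fun g => by
      rw [hk g, sub_self]
      exact T'.zero_mem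
    refine ⟨w - ⟨k, hk2⟩, ?_, h1⟩
    rw [map_sub, sub_eq_self, xm_eq_zero, mem_Ko]
    exact ⟨k, hk, 0, T'.zero_mem, add_zero _⟩
  choose W hW1 hW2 using hex
  have hfin := GP.MN_finite hL N
  have htor : ∀ c, mq T' (W c : Fin m → E) ∈ Submodule.torsionBy (OE E) (Wq T') (l ^ N) := by
    intro c
    rw [Submodule.mem_torsionBy_iff, ← mq_smul, GP.mq_eq_zero]
    simpa using hW2 c
  refine Finite.of_injective (fun c => (⟨mq T' (W c : Fin m → E), htor c⟩ : MN T' l N))
    fun c c' hcc => ?_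
  have h1 : mq T' (W c : Fin m → E) = mq T' (W c' : Fin m → E) := congrArg Subtype.val hcc
  rw [mq_eq] at h1
  rw [← hW1 c, ← hW1 c', ← sub_eq_zero, ← map_sub, xm_eq_zero, mem_Ko]
  exact ⟨0, (KE ρm).zero_mem, _, h1, zero_add _⟩

end Pool.Agent.Work.MP_787500_nt.OP
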