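import Mathlib
import Pool.Agent.Work.MP_787500_nt.OP.Base

/-!
# Module OP/Alt (size M): the form is alternating

NOTATION. `B x y = bil β x y - bil β y x`, `D g = ρ g (s w) - s w`, `τ g = i (r (ρ g (s w)))`, `X g = s (ρm g w - w)`.
Then `D g = τ g + X g` (`Spl.act_s`), `X g ∈ T` (`w ∈ Ac`, `Spl.sT`), `D` is a continuous cocycle (`cob_zv` with
`h.rep`).
1. `Fw w w g u = B (ρ g (τ u)) (D g)` by `hS.pair` (with `ρ g (i x) = i (ρp g x)`, `p (D g) = ρm g w - w`), so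
   `Fw w w g u = - B (D g) (ρ g (D u)) + B (X g) (ρ g (X u)) + B (τ g) (ρ g (X u))`.
2. `f0 g u = B (D g) (ρ g (D u))` is in `KP.BE`: it is `dE χ c` with `c g = B (s w) (D g)` (use `alt_act`).
3. `Z(D) g u = bil β (D g) (ρ g (D u)) + lamE g (D u)` is in `KP.BE`: `2 Z(D) = f0 - dE χ (fun g => bil β (D g) (D g))`
   (complete proof of the same fact: `lg_W` in QV/LagN.lean, it is private there; with `h.alt`).
4. `Z(X) g u = bil β (X g) (ρ g (X u)) + lamE g (X u)` has norm `≤ 1` (`h.bint`, `h.qint`), and `B (X g) (ρ g (X u))`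
   has norm `≤ 1`.
5. With `c g = bil β (X g) (τ g)`: `B (τ g) (ρ g (X u)) - (Z(D) g u + dE χ c g u - Z(X) g u)` has norm `≤ 1`. PROOF: by
   `hS.be0` (two vectors of `i (E ^ m)`), `Z(D) - Z(X) = bil β (τ g) (ρ g (X u)) + bil β (X g) (ρ g (τ u)) +
   bil β (ρ g (X u)) (ρ g (τ u)) - χ g * bil β (X u) (τ u)` (for the last two terms: `lamE` is quadratic and `alt_act`),
   and `X (g u) = X g + ρ g (X u) - ε`, `τ (g u) = τ g + ρ g (τ u) + ε` with `ε = i (r (ρ g (X u))) ∈ T`, so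
   `c (g u) = c g + bil β (X g) (ρ g (τ u)) + bil β (ρ g (X u)) (τ g) + bil β (ρ g (X u)) (ρ g (τ u)) +
   bil β (X (g u)) ε` (again `hS.be0`), and the last term has norm `≤ 1` (`h.bint`).
6. So `Fw w w g u - f g u` has norm `≤ 1` with `f = - f0 + Z(D) + dE χ c` in `KP.BE` (`KR.be_add`, `KR.be_smul`;
   `c` is `KP.N1` by `n1_bil`, `n1_lin`, `n1_act`). Hence `pr0 (t (a * Fw w w g u)) = pr0 (t (a * f g u))` pointwise
   (`pr0_zero_of_norm`, `h.lat.tint`), and `KR.be_inv_zero` for the functional `t ∘ (a * ·)`.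
-/

set_option autoImplicit false
set_option linter.unusedSectionVars false

namespace Pool.Agent.Work.MP_787500_nt.OP

open Matrix
open Pool.Agent.Work.MP_787500_nt.GP (A0 IsAct d0 d1 d2 tw cup11 cup21 cup12 cup01 cup02 EvPow IsPow OE MN
  actN actQ bN bil mq lft mq_lft mq_eq mq_add mq_smul Wq Lat pr0 lamN mem_OE bil_add_left bil_add_right bil_sub_left
  bil_sub_right bil_smul_left bil_smul_right pr0_zero_of_norm actQ_mq)
open Pool.Agent.Work.MP_787500_nt.KR (FSys Sm1 Sm2 IsChar Smooth Z1 Z2 B2 LocH LocD Pair LDual LocRep ZV PerpV zV)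
open Pool.Agent.Work.MP_787500_nt.QS (QM Lag pB Zq)
open Pool.Agent.Work.MP_787500_nt.QV (QRep LagV beN laN lamE)
open Pool.Agent.Work.MP_787500_nt.PA (toE)

universe v

variable {E : Type v} [NormedField E] [NormedAlgebra ℚ_[2] E] [FiniteDimensional ℚ_[2] E] {n m : ℕ}
  {P : Type*} [Group P] {TP : FSys P} {χ : P → ℤ_[2]} {iv : (P → P → A0) → A0} {l : OE E}
  {t : E →ₗ[ℚ_[2]] ℚ_[2]} {T : Submodule (OE E) (Fin n → E)} {β Sm J : Matrix (Fin n) (Fin n) E}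
  {ρ : P → Matrix (Fin n) (Fin n) E} {i s : (Fin m → E) →ₗ[E] (Fin n → E)}
  {r p : (Fin n → E) →ₗ[E] (Fin m → E)} {T' : Submodule (OE E) (Fin m → E)}
  {b' : Matrix (Fin m) (Fin m) E} {ρp ρm : P → Matrix (Fin m) (Fin m) E}

/-- the quadratic cocycle of a vector valued cocycle is a coboundary -/
private theorem al_W (h : QRep TP χ l t T β Sm J ρ) {X : P → Fin n → E} (hX : ZV TP ρ X)
    (hBE : KP.BE TP χ fun g u => bil β (X g) (ρ g *ᵥ X u) - bil β (ρ g *ᵥ X u) (X g)) :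
    KP.BE TP χ fun g u => bil β (X g) (ρ g *ᵥ X u) + lamE χ β ρ g (X u) := by
  have : CharZero E := charZero_of_injective_algebraMap (algebraMap ℚ_[2] E).injective
  have hf : KP.BE TP χ (PA.dE (E := E) χ fun g => bil β (X g) (X g)) :=
    ⟨_, n1_bil β hX.1 hX.1, rfl⟩
  have h1 := KR.be_smul (2⁻¹ : E) (KR.be_add hBE (KR.be_smul (-1 : E) hf))
  have h2 : (fun g u => bil β (X g) (ρ g *ᵥ X u) + lamE χ β ρ g (X u)) =
      fun g u => (2⁻¹ : E) * (bil β (X g) (ρ g *ᵥ X u) - bil β (ρ g *ᵥ X u) (X g) +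
        (-1 : E) * PA.dE (E := E) χ (fun g => bil β (X g) (X g)) g u) := by
    funext g u
    rw [lamE, PA.dE, hX.2 g u, GP.bil_add_left, GP.bil_add_right, GP.bil_add_right]
    ring
  rw [h2]
  exact h1

/-- the cup product of a coboundary and itself is a coboundary -/
private theorem al_cob (h : QRep TP χ l t T β Sm J ρ) (v : Fin n → E) :
    KP.BE TP χ fun g u => bil β (ρ g *ᵥ v - v) (ρ g *ᵥ (ρ u *ᵥ v - v)) -
      bil β (ρ g *ᵥ (ρ u *ᵥ v - v)) (ρ g *ᵥ v - v) := by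
  have hD := cob_zv h.rep v
  have hv : KP.N1 TP (fun _ : P => v) := by
    intro ε hε
    obtain ⟨W, hW⟩ := TP.ex
    exact ⟨W, hW, fun g w _ => by simpa using hε⟩
  refine ⟨fun g => bil β v (ρ g *ᵥ v - v) + (-1 : E) * bil β (ρ g *ᵥ v - v) v, ?_, ?_⟩
  · refine n1_add (n1_bil β hv hD.1) ?_
    have h1 := n1_bil β hD.1 hv
    intro ε hε
    obtain ⟨W, hW, h2⟩ := h1 ε hε
    refine ⟨W, hW, fun g w hw => ?_⟩
    rw [← mul_sub, norm_mul, norm_neg, norm_one, one_mul]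
    exact h2 g w hw
  · funext g u
    have h1 : ρ (g * u) *ᵥ v - v = (ρ g *ᵥ v - v) + ρ g *ᵥ (ρ u *ᵥ v - v) := hD.2 g u
    have h2 := alt_act h g v (ρ u *ᵥ v - v)
    simp only [PA.dE]
    rw [h1]
    set D := ρ g *ᵥ v - v with hDg
    have h3 : ρ g *ᵥ v = D + v := by rw [hDg]; abel
    rw [h3] at h2
    rw [GP.bil_add_left, GP.bil_add_right] at h2
    rw [GP.bil_add_left, GP.bil_add_right]
    linear_combination h2

/-- `lamE` of a sum with a vector of the subspace -/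
private theorem al_lam (h : QRep TP χ l t T β Sm J ρ) (g : P) (x y : Fin n → E)
    (h1 : bil β x x = 0) (h2 : bil β (ρ g *ᵥ x) (ρ g *ᵥ x) = 0) :
    lamE χ β ρ g (x + y) = lamE χ β ρ g y + bil β (ρ g *ᵥ y) (ρ g *ᵥ x) -
      toE E (χ g) * bil β y x := by
  have : CharZero E := charZero_of_injective_algebraMap (algebraMap ℚ_[2] E).injective
  have h3 := alt_act h g x y
  rw [lamE, lamE, mulVec_add]
  simp only [GP.bil_add_left, GP.bil_add_right]
  rw [h1, h2]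
  linear_combination (1 / 2 : E) * h3

theorem alt_zero (H : LocD.{v} TP χ iv) (h : QRep TP χ l t T β Sm J ρ)
    (hS : Spl TP χ l t T β ρ i s r p T' b' ρp ρm) {w : Fin m → E} (hw : w ∈ Ac ρm T') (a : OE E) :
    iv (fun g u => pr0 (t ((a : E) * Fw b' ρ s r ρp ρm w w g u))) = 0 := by
  have hult := Gn.ultra 2 E
  have hD := cob_zv h.rep (s w)
  set D : P → Fin n → E := fun g => ρ g *ᵥ s w - s w with hDdef
  let τ : P → Fin n → E := fun g => i (r (ρ g *ᵥ s w))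
  let X : P → Fin n → E := fun g => s (ρm g *ᵥ w - w)
  have hDX : ∀ g, D g = τ g + X g := by
    intro g
    show ρ g *ᵥ s w - s w = i (r (ρ g *ᵥ s w)) + s (ρm g *ᵥ w - w)
    rw [map_sub]
    conv_lhs => rw [hS.act_s g w]
    abel
  have hXT : ∀ g, X g ∈ T := fun g => hS.sT (hw g)
  have hact : ∀ g u, ρ g *ᵥ τ u = i (ρp g *ᵥ r (ρ u *ᵥ s w)) := fun g u => hS.actp g _
  have hττ : ∀ g u, bil β (τ g) (τ u) = 0 := fun g u => hS.be0 _ _
  have hτa : ∀ g k u, bil β (τ g) (ρ k *ᵥ τ u) = 0 := fun g k u => by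
    rw [hact]
    exact hS.be0 _ _
  have haa : ∀ g u, bil β (ρ g *ᵥ τ u) (ρ g *ᵥ τ u) = 0 := fun g u => by
    rw [hact]
    exact hS.be0 _ _
  -- the function `c`
  have hτN : KP.N1 TP τ := n1_lin i (n1_lin r (n1_act h.rep (s w)))
  have hXN : KP.N1 TP X := n1_lin s (n1_sub_const (n1_act hS.rep w) w)
  have hc : KP.BE TP χ (PA.dE (E := E) χ fun g => bil β (X g) (τ g)) :=
    ⟨_, n1_bil β hXN hτN, rfl⟩
  have hf0 := al_cob h (s w)
  have hZ := al_W h hD hf0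
  have hf := KR.be_add (KR.be_smul (-1 : E) hf0) (KR.be_add hZ hc)
  have hgu : ∀ g u, τ (g * u) = τ g + ρ g *ᵥ τ u + i (r (ρ g *ᵥ X u)) := by
    intro g u
    show i (r (ρ (g * u) *ᵥ s w)) = i (r (ρ g *ᵥ s w)) + ρ g *ᵥ τ u + i (r (ρ g *ᵥ X u))
    have h1 : ρ g *ᵥ s (ρm u *ᵥ w) = ρ g *ᵥ s w + ρ g *ᵥ X u := by
      show _ = ρ g *ᵥ s w + ρ g *ᵥ s (ρm u *ᵥ w - w)
      rw [← mulVec_add, ← map_add, add_sub_cancel]
    rw [hS.r_mul h g u w, h1, map_add, map_add, map_add, hact]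
    abel
  have hXgu : ∀ g u, X (g * u) = X g + ρ g *ᵥ X u - i (r (ρ g *ᵥ X u)) := by
    intro g u
    have h1 : D (g * u) = D g + ρ g *ᵥ D u := hD.2 g u
    rw [hDX, hDX, hDX, mulVec_add, hgu] at h1
    have h2 : X (g * u) = (τ g + ρ g *ᵥ τ u + i (r (ρ g *ᵥ X u)) + X (g * u)) -
        (τ g + ρ g *ᵥ τ u + i (r (ρ g *ᵥ X u))) := by abel
    rw [h2, h1]
    abel
  have heT : ∀ g u, i (r (ρ g *ᵥ X u)) ∈ T := fun g u =>
    hS.iT.2 (hS.rT (h.rep.st g _ (hXT u)))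
  have hkey : ∀ g u, Fw b' ρ s r ρp ρm w w g u -
      ((-1 : E) * (bil β (D g) (ρ g *ᵥ D u) - bil β (ρ g *ᵥ D u) (D g)) +
        ((bil β (D g) (ρ g *ᵥ D u) + lamE χ β ρ g (D u)) +
          PA.dE (E := E) χ (fun g => bil β (X g) (τ g)) g u)) =
      -bil β (ρ g *ᵥ X u) (X g) - lamE χ β ρ g (X u) + bil β (X (g * u)) (i (r (ρ g *ᵥ X u))) := by
    intro g u
    have hFw : Fw b' ρ s r ρp ρm w w g u = bil β (ρ g *ᵥ τ u) (D g) - bil β (D g) (ρ g *ᵥ τ u) := by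
      have hpD : p (D g) = ρm g *ᵥ w - w := by
        show p (ρ g *ᵥ s w - s w) = _
        rw [map_sub, hS.actm, hS.ps]
      rw [hact, hS.pair, hpD, GP.bil_symm hS.lat.symm]
      rfl
    rw [hFw, hDX u, al_lam h g (τ u) (X u) (hττ u u) (haa g u), mulVec_add, hDX g]
    simp only [PA.dE]
    have e1 : bil β (i (r (ρ g *ᵥ X u))) (τ g) = 0 := hS.be0 _ _
    have e2 : bil β (i (r (ρ g *ᵥ X u))) (ρ g *ᵥ τ u) = 0 := by
      rw [hact]
      exact hS.be0 _ _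
    have e3 : bil β (X (g * u)) (τ (g * u)) = bil β (X g) (τ g) + bil β (X g) (ρ g *ᵥ τ u) +
        bil β (ρ g *ᵥ X u) (τ g) + bil β (ρ g *ᵥ X u) (ρ g *ᵥ τ u) +
        bil β (X (g * u)) (i (r (ρ g *ᵥ X u))) := by
      rw [hgu g u, GP.bil_add_right, GP.bil_add_right]
      rw [show bil β (X (g * u)) (τ g) = bil β (X g) (τ g) + bil β (ρ g *ᵥ X u) (τ g) by
        rw [hXgu, GP.bil_sub_left, GP.bil_add_left, e1, sub_zero]]
      rw [show bil β (X (g * u)) (ρ g *ᵥ τ u) = bil β (X g) (ρ g *ᵥ τ u) +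
          bil β (ρ g *ᵥ X u) (ρ g *ᵥ τ u) by
        rw [hXgu, GP.bil_sub_left, GP.bil_add_left, e2, sub_zero]]
      ring
    rw [e3]
    simp only [GP.bil_add_left, GP.bil_add_right]
    rw [hτa g g u]
    ring
  have hint : ∀ g u, ‖Fw b' ρ s r ρp ρm w w g u -
      ((-1 : E) * (bil β (D g) (ρ g *ᵥ D u) - bil β (ρ g *ᵥ D u) (D g)) +
        ((bil β (D g) (ρ g *ᵥ D u) + lamE χ β ρ g (D u)) +
          PA.dE (E := E) χ (fun g => bil β (X g) (τ g)) g u))‖ ≤ 1 := by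
    intro g u
    rw [hkey]
    refine (IsUltrametricDist.norm_add_le_max _ _).trans (max_le ?_ (h.bint _ (hXT _) _ (heT g u)))
    rw [sub_eq_add_neg]
    refine (IsUltrametricDist.norm_add_le_max _ _).trans (max_le ?_ ?_)
    · rw [norm_neg]
      exact h.bint _ (h.rep.st g _ (hXT u)) _ (hXT g)
    · rw [norm_neg]
      exact h.qint g _ (hXT u)
  rw [← KR.be_inv_zero H hf (t.comp (LinearMap.mulLeft ℚ_[2] (a : E)))]
  congr 1
  funext g u
  rw [← sub_eq_zero, ← map_sub]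
  show pr0 (t _ - t _) = 0
  rw [← map_sub]
  show pr0 (t ((a : E) * Fw b' ρ s r ρp ρm w w g u - (a : E) * _)) = 0
  rw [← mul_sub]
  refine pr0_zero_of_norm (h.lat.tint _ ?_)
  rw [norm_mul]
  exact mul_le_one₀ a.2 (norm_nonneg _) (hint g u)

end Pool.Agent.Work.MP_787500_nt.OP
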