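import Mathlib
import Pool.Agent.Work.MP_787500_nt.OP.Base

/-!
# Module OP/Rad (size M): the pairing is a cocycle, its radical

For `w' w ∈ Ac` choose `N` with `l ^ N * r (ρ u (s w)) ∈ T'` for all `u` (`n1_bdd` of `n1_lin` of `n1_act`, `hS.lat.opn`,
`‖l‖ < 1`; see `hkill` in the proof of `KR.perp_iff`, KR/L12.lean). `x g = mq T' (l ^ (-N) (ρm g w' - w'))` and
`y u = mq T' (r (ρ u (s w)))` are elements of `MN T' l N`. `x` is in `Z1` for `actN ρm` (it is `d0` of a vector of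
`E ^ m`: direct, or `KR.zv_level` with `cob_zv`), `y` is in `Z1` for `actN ρp`: `Spl.r_coc`, and `Sm1`
because `y` is `mq` of a function that is `KP.N1` (as in `l09_level`, KR/L09.lean, `hS.lat.opn`).
`cup11 (actN ρp) (bN hS.lat N) x y g u = pr0 (t (Fw w' w g u))` (`GP.bN_val`, as in `KR.cup_level`). So `rad_z2` is
`KR.cup11_Z2` with the pair `KR.pair_MN` (KR/L08.lean) for `hS.rep`.

`rad_iff`: `KR.perp_iff` for `hS.lat`, `hS.rep`, `L = B¹ = {X | ∃ v, ∀ g, X g = ρm g v - v}` and the level `N`, `y` as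
above. `RN y`: an element of `lamN T' l N L` is `x g = mq T' (ρm g v - v)` with `l ^ N (ρm g v - v) ∈ T'`, i.e.
`w' = l ^ N v ∈ Ac`, and conversely, and `iv (x ∪ y)` is the value for `w'`. `PerpV .. L Y` is just `ZV TP ρp Y`
(`KR.cob_perpV` applied to `rep_swap`, or directly: the cup product of the coboundary of `v` and a cocycle is `dE` of
`g ↦ bil b' v (Y g)`), and `y = mq Y` means `r (ρ g (s w)) - Y g ∈ T'`.
-/

set_option autoImplicit false
set_option linter.unusedSectionVars false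

namespace Pool.Agent.Work.MP_787500_nt.OP

open Matrix
open Pool.Agent.Work.MP_787500_nt.GP (A0 IsAct d0 d1 d2 tw cup11 cup21 cup12 cup01 cup02 EvPow IsPow OE MN
  actN actQ bN bil mq lft mq_lft mq_eq mq_add mq_smul Wq Lat pr0 lamN mem_OE bil_add_left bil_add_right bil_sub_left
  bil_sub_right bil_smul_left bil_smul_right pr0_zero_of_norm actQ_mq)
open Pool.Agent.Work.MP_787500_nt.KR (FSys Sm1 Sm2 IsChar Smooth Z1 Z2 B2 LocH LocD Pair LDual LocRep ZV PerpV zV)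
open Pool.Agent.Work.MP_787500_nt.QS (QM Lag pB Zq)
open Pool.Agent.Work.MP_787500_nt.QV (QRep LagV beN laN lamE)
open Pool.Agent.Work.MP_787500_nt.PA (toE)

universe v

variable {E : Type v} [NormedField E] [NormedAlgebra ℚ_[2] E] [FiniteDimensional ℚ_[2] E] {n m : ℕ}
  {P : Type*} [Group P] {TP : FSys P} {χ : P → ℤ_[2]} {iv : (P → P → A0) → A0} {l : OE E}
  {t : E →ₗ[ℚ_[2]] ℚ_[2]} {T : Submodule (OE E) (Fin n → E)} {β Sm J : Matrix (Fin n) (Fin n) E}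
  {ρ : P → Matrix (Fin n) (Fin n) E} {i s : (Fin m → E) →ₗ[E] (Fin n → E)}
  {r p : (Fin n → E) →ₗ[E] (Fin m → E)} {T' : Submodule (OE E) (Fin m → E)}
  {b' : Matrix (Fin m) (Fin m) E} {ρp ρm : P → Matrix (Fin m) (Fin m) E}

/-- a level for `w` -/
private theorem rad_lvl (h : QRep TP χ l t T β Sm J ρ)
    (hS : Spl TP χ l t T β ρ i s r p T' b' ρp ρm) (w : Fin m → E) :
    ∃ N : ℕ, ∀ u, l ^ N • mq T' (r (ρ u *ᵥ s w)) = 0 := by
  obtain ⟨C, hC⟩ := n1_bdd (n1_lin r (n1_act h.rep (s w)))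
  obtain ⟨r0, hr0, hT⟩ := hS.lat.opn
  have h3 : Filter.Tendsto (fun k : ℕ => ‖(l : E)‖ ^ k * |C|) Filter.atTop (nhds 0) := by
    have := (tendsto_pow_atTop_nhds_zero_of_lt_one (norm_nonneg _) hS.lat.llt).mul_const |C|
    rwa [zero_mul] at this
  obtain ⟨k, hk⟩ := (h3.eventually_lt_const hr0).exists
  refine ⟨k, fun u => ?_⟩
  rw [← mq_smul, GP.mq_eq_zero]
  refine hT _ ?_
  rw [norm_smul]
  have e1 : ‖((l ^ k : OE E) : E)‖ = ‖(l : E)‖ ^ k := by
    rw [show ((l ^ k : OE E) : E) = (l : E) ^ k from rfl, norm_pow]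
  rw [e1]
  exact (mul_le_mul_of_nonneg_left ((hC u).trans (le_abs_self C)) (by positivity)).trans_lt hk

/-- the element of level `N` attached to a vector -/
private def rmk (T' : Submodule (OE E) (Fin m → E)) (l : OE E) (N : ℕ) (q : Wq T')
    (h : l ^ N • q = 0) : MN T' l N := ⟨q, by rwa [Submodule.mem_torsionBy_iff]⟩

private theorem rad_xk (hS : Spl TP χ l t T β ρ i s r p T' b' ρp ρm) {w' : Fin m → E}
    (hw' : w' ∈ Ac ρm T') (N : ℕ) (g : P) :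
    l ^ N • mq T' (((l : E) ^ N)⁻¹ • (ρm g *ᵥ w' - w')) = 0 := by
  rw [← mq_smul, GP.mq_eq_zero, smul_smul]
  have h1 : ((l ^ N : OE E) : E) * ((l : E) ^ N)⁻¹ = 1 :=
    mul_inv_cancel₀ (pow_ne_zero _ hS.lat.lne)
  rw [h1, one_smul]
  exact hw' g

private theorem rad_xz (hS : Spl TP χ l t T β ρ i s r p T' b' ρp ρm) (w' : Fin m → E) (N : ℕ) :
    ZV TP ρm (fun g => ((l : E) ^ N)⁻¹ • (ρm g *ᵥ w' - w')) :=
  (zV TP ρm).smul_mem (((l : E) ^ N)⁻¹) (cob_zv hS.rep w')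

/-- the cochain of `w` is a cocycle at level `N` -/
private theorem rad_yz (h : QRep TP χ l t T β Sm J ρ)
    (hS : Spl TP χ l t T β ρ i s r p T' b' ρp ρm) {w : Fin m → E} (hw : w ∈ Ac ρm T') {N : ℕ}
    {y : P → MN T' l N} (hy : ∀ u, (y u : Wq T') = mq T' (r (ρ u *ᵥ s w))) :
    Z1 TP (actN l N ρp hS.rep.st') y := by
  constructor
  · obtain ⟨r0, hr, hT⟩ := hS.lat.opn
    obtain ⟨W, hW, h1⟩ := n1_lin r (n1_act h.rep (s w)) r0 hr
    refine ⟨W, hW, fun g w1 hw1 => Subtype.ext ?_⟩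
    rw [hy, hy, mq_eq]
    exact hT _ (h1 g w1 hw1)
  · intro g u
    refine Subtype.ext ?_
    rw [Submodule.coe_add, GP.coe_actN, hy, hy, hy, actQ_mq (hS.rep.st' g), ← mq_add, mq_eq]
    exact hS.r_coc h g u hw

private theorem rad_cup (hS : Spl TP χ l t T β ρ i s r p T' b' ρp ρm) {w' w : Fin m → E} {N : ℕ}
    {x y : P → MN T' l N}
    (hx : ∀ g, (x g : Wq T') = mq T' (((l : E) ^ N)⁻¹ • (ρm g *ᵥ w' - w')))
    (hy : ∀ u, (y u : Wq T') = mq T' (r (ρ u *ᵥ s w))) :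
    cup11 (actN l N ρp hS.rep.st') (bN hS.lat N) x y =
      fun g u => pr0 (t (Fw b' ρ s r ρp ρm w' w g u)) := by
  funext g u
  rw [KR.cup_level hS.lat hS.rep N (X := fun g => ((l : E) ^ N)⁻¹ • (ρm g *ᵥ w' - w'))
    (Y := fun u => r (ρ u *ᵥ s w)) hx hy g u]
  congr 2
  simp only [GP.cupE, Fw, bil_smul_left]
  rw [← mul_assoc, mul_inv_cancel₀ (pow_ne_zero _ hS.lat.lne), one_mul]

theorem rad_z2 (H : LocD.{v} TP χ iv) (h : QRep TP χ l t T β Sm J ρ)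
    (hS : Spl TP χ l t T β ρ i s r p T' b' ρp ρm) {w' w : Fin m → E} (hw' : w' ∈ Ac ρm T')
    (hw : w ∈ Ac ρm T') : Z2 TP (tw χ) (fun g u => pr0 (t (Fw b' ρ s r ρp ρm w' w g u))) := by
  obtain ⟨N, hN⟩ := rad_lvl h hS w
  let x : P → MN T' l N := fun g => rmk T' l N _ (rad_xk hS hw' N g)
  let y : P → MN T' l N := fun u => rmk T' l N _ (hN u)
  have hx : ∀ g, (x g : Wq T') = mq T' (((l : E) ^ N)⁻¹ • (ρm g *ᵥ w' - w')) := fun g => rfl
  have hy : ∀ u, (y u : Wq T') = mq T' (r (ρ u *ᵥ s w)) := fun u => rfl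
  have h1 := KR.cup11_Z2 (KR.pair_MN hS.lat hS.rep N)
    (KR.zv_level hS.lat hS.rep N (rad_xz hS w' N) hx) (rad_yz h hS hw hy)
  rwa [rad_cup hS hx hy] at h1

/-- the coboundaries -/
private def radL (ρm : P → Matrix (Fin m) (Fin m) E) : Submodule E (P → Fin m → E) where
  carrier := {X | ∃ v, ∀ g, X g = ρm g *ᵥ v - v}
  add_mem' := by
    rintro X Y ⟨v, hv⟩ ⟨v', hv'⟩
    refine ⟨v + v', fun g => ?_⟩
    rw [Pi.add_apply, hv, hv', mulVec_add]
    abel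
  zero_mem' := ⟨0, fun g => by rw [Pi.zero_apply, mulVec_zero, sub_zero]⟩
  smul_mem' := by
    rintro a X ⟨v, hv⟩
    refine ⟨a • v, fun g => ?_⟩
    rw [Pi.smul_apply, hv, mulVec_smul, smul_sub]

/-- the cup product of a coboundary and a cocycle is a coboundary -/
private theorem rad_be (hS : Spl TP χ l t T β ρ i s r p T' b' ρp ρm) {Y : P → Fin m → E}
    (hY : ZV TP ρp Y) : PerpV TP χ b' ρp (radL ρm) Y := by
  refine ⟨hY, ?_⟩
  rintro X ⟨v, hv⟩
  refine ⟨fun g => bil b' v (Y g), ?_, ?_⟩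
  · have hc : KP.N1 TP (fun _ : P => v) := by
      intro ε hε
      obtain ⟨W, hW⟩ := TP.ex
      exact ⟨W, hW, fun g w _ => by simpa using hε⟩
    exact n1_bil b' hc hY.1
  · funext g u
    simp only [GP.cupE, PA.dE, hv, hY.2, bil_sub_left, bil_add_right, hS.rep.dual]
    ring

theorem rad_iff (H : LocD.{v} TP χ iv) (h : QRep TP χ l t T β Sm J ρ)
    (hS : Spl TP χ l t T β ρ i s r p T' b' ρp ρm) (w : ↥(Ac ρm T')) :
    (∀ w' ∈ Ac ρm T', iv (fun g u => pr0 (t (Fw b' ρ s r ρp ρm w' (w : Fin m → E) g u))) = 0) ↔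
      w ∈ Ap TP ρ s r ρp ρm T' := by
  obtain ⟨N, hN⟩ := rad_lvl h hS (w : Fin m → E)
  let y : P → MN T' l N := fun u => rmk T' l N _ (hN u)
  have hy : ∀ u, (y u : Wq T') = mq T' (r (ρ u *ᵥ s (w : Fin m → E))) := fun u => rfl
  have hL : ∀ X ∈ radL ρm, ZV TP ρm X := by
    rintro X ⟨v, hv⟩
    have e : X = fun g => ρm g *ᵥ v - v := funext hv
    rw [e]
    exact cob_zv hS.rep v
  have hL0 : ∀ v, (fun d => ρm d *ᵥ v - v) ∈ radL ρm := fun v => ⟨v, fun g => rfl⟩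
  have hpi := KR.perp_iff H hS.lat hS.rep hL hL0 y
  rw [mem_Ap]
  constructor
  · intro h1
    have hRN : KR.RN iv hS.lat hS.rep (radL ρm) N y := by
      refine ⟨rad_yz h hS w.2 hy, ?_⟩
      rintro x ⟨X, ⟨v, hv⟩, hx⟩
      have hw' : (l : E) ^ N • v ∈ Ac ρm T' := by
        intro g
        have h2 := (x g).mem
        rw [hx, ← mq_smul, GP.mq_eq_zero, hv] at h2
        rw [mulVec_smul, ← smul_sub]
        exact h2
      have h3 := h1 _ hw'
      rw [← rad_cup hS (x := x) (y := y) (fun g => ?_) hy] at h3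
      · exact h3
      · rw [hx, hv, mulVec_smul, ← smul_sub, smul_smul, inv_mul_cancel₀
          (pow_ne_zero _ hS.lat.lne), one_smul]
    obtain ⟨Y, hY, hm⟩ := hpi.1 hRN
    refine ⟨Y, hY.1, fun g => ?_⟩
    rw [← mq_eq, ← hy, hm]
  · rintro ⟨Y, hY, hm⟩ w' hw'
    have hRN := hpi.2 ⟨Y, rad_be hS hY, fun d => by rw [hy, mq_eq]; exact hm d⟩
    let x : P → MN T' l N := fun g => rmk T' l N _ (rad_xk hS hw' N g)
    have hx : ∀ g, (x g : Wq T') = mq T' (((l : E) ^ N)⁻¹ • (ρm g *ᵥ w' - w')) := fun g => rfl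
    have h1 := hRN.2 x ⟨fun g => ((l : E) ^ N)⁻¹ • (ρm g *ᵥ w' - w'),
      ⟨((l : E) ^ N)⁻¹ • w', fun g => by rw [mulVec_smul, ← smul_sub]⟩, hx⟩
    rwa [rad_cup hS hx hy] at h1

end Pool.Agent.Work.MP_787500_nt.OP
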