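import Mathlib
import Pool.Agent.Work.MP_787500_nt.OP.Alt
import Pool.Agent.Work.MP_787500_nt.OP.Rad

/-!
# Module OP/Form (size M): the form on the finite module `X`

`φ w' w = iv (fun g u => pr0 (t (Fw w' w g u)))` for `w' w ∈ Ac`. It is additive in both variables (`H.add` with
`rad_z2`, and `Fw` is additive in `w'` and in `w`). `Fw (a • w') w = a * Fw w' w = Fw w' (a • w)`.
`φ (a • w) w = 0` (`alt_zero`), so `φ w' w = - φ w w'` (expand `φ (w' + w) (w' + w)`, `a = 1`).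
`φ w' x = 0` for `x ∈ T'` (`rad_iff`: `x ∈ Ap` with the cocycle `Y = 0`, `Spl.r_act_mem`), hence `φ x w' = 0`;
`Fw k w = 0` for `k ∈ KE`, so `φ k w = 0` (`H.cob` for `z = 0`, or additivity), hence `φ w k = 0`. So `φ` descends to
`XA × XA` (`QuotientAddGroup.lift` / `Submodule.liftQ`, or define the value by representatives and show that it does not
depend on them: `xm_surj`, `xm_eq_zero`, `mem_Ko`; the vectors of `T'` and of `KE` are in `Ac`). The radical is the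
image of `Ap` by `rad_iff` and `φ w' w = - φ w w'`.
-/

set_option autoImplicit false
set_option linter.unusedSectionVars false

namespace Pool.Agent.Work.MP_787500_nt.OP

open Matrix
open Pool.Agent.Work.MP_787500_nt.GP (A0 IsAct d0 d1 d2 tw cup11 cup21 cup12 cup01 cup02 EvPow IsPow OE MN
  actN actQ bN bil mq lft mq_lft mq_eq mq_add mq_smul Wq Lat pr0 lamN mem_OE bil_add_left bil_add_right bil_sub_left
  bil_sub_right bil_smul_left bil_smul_right pr0_zero_of_norm actQ_mq)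
open Pool.Agent.Work.MP_787500_nt.KR (FSys Sm1 Sm2 IsChar Smooth Z1 Z2 B2 LocH LocD Pair LDual LocRep ZV PerpV zV)
open Pool.Agent.Work.MP_787500_nt.QS (QM Lag pB Zq)
open Pool.Agent.Work.MP_787500_nt.QV (QRep LagV beN laN lamE)
open Pool.Agent.Work.MP_787500_nt.PA (toE)

universe v

variable {E : Type v} [NormedField E] [NormedAlgebra ℚ_[2] E] [FiniteDimensional ℚ_[2] E] {n m : ℕ}
  {P : Type*} [Group P] {TP : FSys P} {χ : P → ℤ_[2]} {iv : (P → P → A0) → A0} {l : OE E}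
  {t : E →ₗ[ℚ_[2]] ℚ_[2]} {T : Submodule (OE E) (Fin n → E)} {β Sm J : Matrix (Fin n) (Fin n) E}
  {ρ : P → Matrix (Fin n) (Fin n) E} {i s : (Fin m → E) →ₗ[E] (Fin n → E)}
  {r p : (Fin n → E) →ₗ[E] (Fin m → E)} {T' : Submodule (OE E) (Fin m → E)}
  {b' : Matrix (Fin m) (Fin m) E} {ρp ρm : P → Matrix (Fin m) (Fin m) E}

section aux

private theorem fm_add_left (b' : Matrix (Fin m) (Fin m) E) (ρ : P → Matrix (Fin n) (Fin n) E)
    (s : (Fin m → E) →ₗ[E] (Fin n → E)) (r : (Fin n → E) →ₗ[E] (Fin m → E))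
    (ρp ρm : P → Matrix (Fin m) (Fin m) E) (x y w : Fin m → E) (g u : P) :
    Fw b' ρ s r ρp ρm (x + y) w g u = Fw b' ρ s r ρp ρm x w g u + Fw b' ρ s r ρp ρm y w g u := by
  simp only [Fw]
  rw [← GP.bil_add_left]
  congr 1
  rw [mulVec_add]
  abel

private theorem fm_add_right (b' : Matrix (Fin m) (Fin m) E) (ρ : P → Matrix (Fin n) (Fin n) E)
    (s : (Fin m → E) →ₗ[E] (Fin n → E)) (r : (Fin n → E) →ₗ[E] (Fin m → E))
    (ρp ρm : P → Matrix (Fin m) (Fin m) E) (w x y : Fin m → E) (g u : P) :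
    Fw b' ρ s r ρp ρm w (x + y) g u = Fw b' ρ s r ρp ρm w x g u + Fw b' ρ s r ρp ρm w y g u := by
  simp only [Fw]
  rw [← GP.bil_add_right, map_add, mulVec_add, map_add, mulVec_add]

private theorem fm_smul_left (b' : Matrix (Fin m) (Fin m) E) (ρ : P → Matrix (Fin n) (Fin n) E)
    (s : (Fin m → E) →ₗ[E] (Fin n → E)) (r : (Fin n → E) →ₗ[E] (Fin m → E))
    (ρp ρm : P → Matrix (Fin m) (Fin m) E) (a : E) (x w : Fin m → E) (g u : P) :
    Fw b' ρ s r ρp ρm (a • x) w g u = a * Fw b' ρ s r ρp ρm x w g u := by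
  simp only [Fw]
  rw [← GP.bil_smul_left, smul_sub, mulVec_smul]

private theorem fm_smul_right (b' : Matrix (Fin m) (Fin m) E) (ρ : P → Matrix (Fin n) (Fin n) E)
    (s : (Fin m → E) →ₗ[E] (Fin n → E)) (r : (Fin n → E) →ₗ[E] (Fin m → E))
    (ρp ρm : P → Matrix (Fin m) (Fin m) E) (a : E) (w x : Fin m → E) (g u : P) :
    Fw b' ρ s r ρp ρm w (a • x) g u = a * Fw b' ρ s r ρp ρm w x g u := by
  simp only [Fw]
  rw [← GP.bil_smul_right, map_smul, mulVec_smul, map_smul, mulVec_smul]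

/-- the form on `Ac` -/
private theorem exists_pre (H : LocD.{v} TP χ iv) (h : QRep TP χ l t T β Sm J ρ)
    (hS : Spl TP χ l t T β ρ i s r p T' b' ρp ρm) :
    ∃ Φ : ↥(Ac ρm T') →+ ↥(Ac ρm T') →+ A0, ∀ w' w : ↥(Ac ρm T'), Φ w' w =
        iv (fun g u => pr0 (t (Fw b' ρ s r ρp ρm (w' : Fin m → E) (w : Fin m → E) g u))) := by
  refine ⟨AddMonoidHom.mk' (fun w' => AddMonoidHom.mk'
    (fun w => iv (fun g u => pr0 (t (Fw b' ρ s r ρp ρm (w' : Fin m → E) (w : Fin m → E) g u)))) ?_) ?_,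
    fun w' w => rfl⟩
  · intro x y
    rw [← H.add _ _ (rad_z2 H h hS w'.2 x.2) (rad_z2 H h hS w'.2 y.2)]
    congr 1
    funext g u
    rw [← map_add, ← map_add, ← fm_add_right]
    rfl
  · intro x y
    ext w
    show iv _ = iv _ + iv _
    rw [← H.add _ _ (rad_z2 H h hS x.2 w.2) (rad_z2 H h hS y.2 w.2)]
    congr 1
    funext g u
    rw [← map_add, ← map_add, ← fm_add_left]
    rfl

end aux

theorem exists_form (H : LocD.{v} TP χ iv) (h : QRep TP χ l t T β Sm J ρ)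
    (hS : Spl TP χ l t T β ρ i s r p T' b' ρp ρm) :
    ∃ B : XA ρm T' →+ XA ρm T' →+ A0,
      (∀ w' w : ↥(Ac ρm T'), B (xm ρm T' w') (xm ρm T' w) =
        iv (fun g u => pr0 (t (Fw b' ρ s r ρp ρm (w' : Fin m → E) (w : Fin m → E) g u)))) ∧
      (∀ (a : OE E) x y, B (a • x) y = B x (a • y)) ∧ (∀ (a : OE E) x, B (a • x) x = 0) ∧
      ∀ x, x ∈ (Ap TP ρ s r ρp ρm T').map (xm ρm T') ↔ ∀ y, B x y = 0 := by
  obtain ⟨Φ, hΦ⟩ := exists_pre H h hS
  have halt : ∀ (a : OE E) (w : ↥(Ac ρm T')), Φ (a • w) w = 0 := by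
    intro a w
    rw [hΦ, ← alt_zero H h hS w.2 a]
    congr 1
    funext g u
    rw [← fm_smul_left]
    rfl
  have hskew : ∀ x y : ↥(Ac ρm T'), Φ x y = -Φ y x := by
    intro x y
    have h0 := halt 1 (x + y)
    have h1 := halt 1 x
    have h2 := halt 1 y
    rw [one_smul] at h0 h1 h2
    simp only [map_add, AddMonoidHom.add_apply] at h0
    rw [h1, h2, zero_add, add_zero] at h0
    exact eq_neg_of_add_eq_zero_right h0
  have hbal : ∀ (a : OE E) (x y : ↥(Ac ρm T')), Φ (a • x) y = Φ x (a • y) := by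
    intro a x y
    rw [hΦ, hΦ]
    congr 1
    funext g u
    have e1 : (((a • x : ↥(Ac ρm T')) : Fin m → E)) = (a : E) • (x : Fin m → E) := rfl
    have e2 : (((a • y : ↥(Ac ρm T')) : Fin m → E)) = (a : E) • (y : Fin m → E) := rfl
    rw [e1, e2, fm_smul_left, fm_smul_right]
  have hrad : ∀ x : ↥(Ac ρm T'), (∀ y, Φ y x = 0) ↔ x ∈ Ap TP ρ s r ρp ρm T' := by
    intro x
    rw [← rad_iff H h hS x]
    constructor
    · intro h1 w' hw'
      have h2 := h1 ⟨w', hw'⟩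
      rwa [hΦ] at h2
    · intro h1 y
      rw [hΦ]
      exact h1 y y.2
  have hT : ∀ x : ↥(Ac ρm T'), (x : Fin m → E) ∈ T' → ∀ y, Φ y x = 0 := by
    intro x hx
    rw [hrad]
    refine mem_Ap.2 ⟨0, (zV TP ρp).zero_mem, fun g => ?_⟩
    rw [Pi.zero_apply, sub_zero]
    exact hS.r_act_mem h g hx
  have hK : ∀ x : ↥(Ac ρm T'), (x : Fin m → E) ∈ KE ρm → ∀ y, Φ x y = 0 := by
    intro x hx y
    have h1 : Φ x y = Φ 0 y := by
      rw [hΦ, hΦ]
      congr 1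
      funext g u
      congr 2
      simp only [Fw]
      congr 1
      have e1 : ((0 : ↥(Ac ρm T')) : Fin m → E) = 0 := rfl
      rw [mem_KE.1 hx g, e1, mulVec_zero, sub_self, sub_self]
    rw [h1, map_zero, AddMonoidHom.zero_apply]
  have hKo : ∀ x : ↥(Ac ρm T'), (x : Fin m → E) ∈ Ko ρm T' → ∀ y, Φ y x = 0 := by
    intro x hx y
    obtain ⟨k, hk, z, hz, hkz⟩ := mem_Ko.1 hx
    have hkA : k ∈ Ac ρm T' := fun g => by
      rw [mem_KE.1 hk g, sub_self]
      exact T'.zero_mem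
    have hzA : z ∈ Ac ρm T' := by
      have h1 : z = (x : Fin m → E) - k := by rw [← hkz]; abel
      rw [h1]
      exact (Ac ρm T').sub_mem x.2 hkA
    have h2 : x = (⟨k, hkA⟩ : ↥(Ac ρm T')) + ⟨z, hzA⟩ := Subtype.ext hkz.symm
    rw [h2, map_add, hT ⟨z, hzA⟩ hz y, hskew y ⟨k, hkA⟩, hK ⟨k, hkA⟩ hk y, neg_zero, add_zero]
  have hwell : ∀ x x' y y' : ↥(Ac ρm T'), xm ρm T' x = xm ρm T' x' → xm ρm T' y = xm ρm T' y' →
      Φ x y = Φ x' y' := by
    intro x x' y y' hx hy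
    have h1 : ((x - x' : ↥(Ac ρm T')) : Fin m → E) ∈ Ko ρm T' := by
      rw [← xm_eq_zero, map_sub, hx, sub_self]
    have h2 : ((y - y' : ↥(Ac ρm T')) : Fin m → E) ∈ Ko ρm T' := by
      rw [← xm_eq_zero, map_sub, hy, sub_self]
    have h3 : Φ x y - Φ x' y = 0 := by
      rw [← AddMonoidHom.sub_apply, ← map_sub, hskew, hKo _ h1 y, neg_zero]
    have h4 : Φ x' y - Φ x' y' = 0 := by
      rw [← map_sub, hKo _ h2 x']
    rw [sub_eq_zero.1 h3, sub_eq_zero.1 h4]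
  have hsu := xm_surj ρm T'
  let σ : XA ρm T' → ↥(Ac ρm T') := Function.surjInv hsu
  have hσ : ∀ x, xm ρm T' (σ x) = x := Function.surjInv_eq hsu
  refine ⟨AddMonoidHom.mk' (fun x => AddMonoidHom.mk' (fun y => Φ (σ x) (σ y)) ?_) ?_, ?_, ?_, ?_, ?_⟩
  · intro y y'
    rw [← map_add]
    refine hwell _ _ _ _ rfl ?_
    rw [map_add, hσ, hσ, hσ]
  · intro x x'
    ext y
    show Φ _ _ = Φ _ _ + Φ _ _
    rw [← AddMonoidHom.add_apply, ← map_add]
    refine hwell _ _ _ _ ?_ rfl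
    rw [map_add, hσ, hσ, hσ]
  · intro w' w
    rw [← hΦ]
    exact hwell _ _ _ _ (hσ _) (hσ _)
  · intro a x y
    show Φ (σ (a • x)) (σ y) = Φ (σ x) (σ (a • y))
    have h1 : Φ (σ (a • x)) (σ y) = Φ (a • σ x) (σ y) := by
      refine hwell _ _ _ _ ?_ rfl
      rw [map_smul, hσ, hσ]
    have h2 : Φ (σ x) (σ (a • y)) = Φ (σ x) (a • σ y) := by
      refine hwell _ _ _ _ rfl ?_
      rw [map_smul, hσ, hσ]
    rw [h1, h2, hbal]
  · intro a x
    show Φ (σ (a • x)) (σ x) = 0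
    have h1 : Φ (σ (a • x)) (σ x) = Φ (a • σ x) (σ x) := by
      refine hwell _ _ _ _ ?_ rfl
      rw [map_smul, hσ, hσ]
    rw [h1, halt]
  · intro x
    constructor
    · rintro ⟨w, hw, rfl⟩ y
      show Φ (σ (xm ρm T' w)) (σ y) = 0
      rw [hwell _ w _ (σ y) (hσ _) rfl, hskew, (hrad w).2 hw, neg_zero]
    · intro h1
      refine ⟨σ x, ?_, hσ x⟩
      rw [SetLike.mem_coe, ← hrad]
      intro y
      have h2 : Φ (σ x) (σ (xm ρm T' y)) = 0 := h1 (xm ρm T' y)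
      rw [hskew, hwell _ (σ x) _ (σ (xm ρm T' y)) rfl (hσ _).symm, h2, neg_zero]

end Pool.Agent.Work.MP_787500_nt.OP
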