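import Mathlib
import Pool.Agent.Work.MP_787500_nt.OP.Base
import Pool.Agent.Work.MP_787500_nt.GP.L13_CardN
import Pool.Agent.Work.MP_787500_nt.GP.L08_MN

/-!
# Module OP/HZ (size M): the fixed vectors of the finite module

Let `F = {x : MN T' l 1 // x fixed}`; `x = mq T' w` is fixed iff `w ∈ Ac` (with `l w ∈ T'`). The map `F → XA[l]`,
`mq T' w ↦ xm w` (`l xm w = xm (l w) = 0`, `T' ≤ Ko`) is well defined (`T' ≤ Ko`), additive and surjective:
if `l • xm w = 0`, then `l w = k + x`, `k ∈ KE`, `x ∈ T'` (`mem_Ko`), and `w' = l⁻¹ x = w - l⁻¹ k` is in `Ac` with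
`xm w' = xm w`, `l w' ∈ T'`. Its kernel consists of the `mq T' w` with `w = k + x`, `k ∈ KE`, `x ∈ T'`, i.e. `mq T' k`,
`k ∈ KE`, `l k ∈ T'`: it is in bijection with `lamN T' l 1 L`, `L = {X : Unit → Fin m → E | X () ∈ KE}` (D = Unit),
whose number of elements is `q ^ finrank L` (`GP.card_lamN`, GP/L13_CardN.lean; the members of `L` are bounded since
`Unit` is finite), and `finrank L = finrank KE` (`L` and `KE` are linearly equivalent).
The number of elements of the source of a homomorphism of finite groups with surjective image is the number of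
elements of the kernel times that of the target.
-/

set_option autoImplicit false
set_option linter.unusedSectionVars false

namespace Pool.Agent.Work.MP_787500_nt.OP

open Matrix
open Pool.Agent.Work.MP_787500_nt.GP (A0 IsAct d0 d1 d2 tw cup11 cup21 cup12 cup01 cup02 EvPow IsPow OE MN
  actN actQ bN bil mq lft mq_lft mq_eq mq_add mq_smul Wq Lat pr0 lamN mem_OE bil_add_left bil_add_right bil_sub_left
  bil_sub_right bil_smul_left bil_smul_right pr0_zero_of_norm actQ_mq)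
open Pool.Agent.Work.MP_787500_nt.KR (FSys Sm1 Sm2 IsChar Smooth Z1 Z2 B2 LocH LocD Pair LDual LocRep ZV PerpV zV)
open Pool.Agent.Work.MP_787500_nt.QS (QM Lag pB Zq)
open Pool.Agent.Work.MP_787500_nt.QV (QRep LagV beN laN lamE)
open Pool.Agent.Work.MP_787500_nt.PA (toE)

universe v

variable {E : Type v} [NormedField E] [NormedAlgebra ℚ_[2] E] [FiniteDimensional ℚ_[2] E] {n m : ℕ}
  {P : Type*} [Group P] {TP : FSys P} {χ : P → ℤ_[2]} {iv : (P → P → A0) → A0} {l : OE E}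
  {t : E →ₗ[ℚ_[2]] ℚ_[2]} {T : Submodule (OE E) (Fin n → E)} {β Sm J : Matrix (Fin n) (Fin n) E}
  {ρ : P → Matrix (Fin n) (Fin n) E} {i s : (Fin m → E) →ₗ[E] (Fin n → E)}
  {r p : (Fin n → E) →ₗ[E] (Fin m → E)} {T' : Submodule (OE E) (Fin m → E)}
  {b' : Matrix (Fin m) (Fin m) E} {ρp ρm : P → Matrix (Fin m) (Fin m) E}

/-- the vectors fixed modulo the lattice and killed by `l` modulo the lattice -/
private def hzW (ρm : P → Matrix (Fin m) (Fin m) E) (T' : Submodule (OE E) (Fin m → E)) (l : OE E) :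
    AddSubgroup (Fin m → E) where
  carrier := {w | w ∈ Ac ρm T' ∧ (l : E) • w ∈ T'}
  add_mem' := fun {x y} hx hy => ⟨(Ac ρm T').add_mem hx.1 hy.1, by
    rw [smul_add]
    exact T'.add_mem hx.2 hy.2⟩
  zero_mem' := ⟨(Ac ρm T').zero_mem, by
    rw [smul_zero]
    exact T'.zero_mem⟩
  neg_mem' := fun {x} hx => ⟨(Ac ρm T').neg_mem hx.1, by
    rw [smul_neg]
    exact T'.neg_mem hx.2⟩

private def hzphi (ρm : P → Matrix (Fin m) (Fin m) E) (T' : Submodule (OE E) (Fin m → E)) (l : OE E) :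
    hzW ρm T' l →+ MN T' l 1 where
  toFun := fun w => ⟨mq T' (w : Fin m → E), by
    rw [Submodule.mem_torsionBy_iff, pow_one, ← mq_smul]
    exact GP.mq_eq_zero.2 w.2.2⟩
  map_zero' := rfl
  map_add' := fun _ _ => rfl

private def hzpsi (ρm : P → Matrix (Fin m) (Fin m) E) (T' : Submodule (OE E) (Fin m → E)) (l : OE E) :
    hzW ρm T' l →+ XA ρm T' where
  toFun := fun w => xm ρm T' ⟨(w : Fin m → E), w.2.1⟩
  map_zero' := by
    have h : (⟨((0 : hzW ρm T' l) : Fin m → E), (0 : hzW ρm T' l).2.1⟩ : ↥(Ac ρm T')) = 0 := rfl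
    rw [h, map_zero]
  map_add' := fun x y => by
    rw [← map_add]
    rfl

private theorem hz_phi_ker {w : hzW ρm T' l} : w ∈ (hzphi ρm T' l).ker ↔ (w : Fin m → E) ∈ T' := by
  rw [AddMonoidHom.mem_ker]
  constructor
  · intro h
    exact GP.mq_eq_zero.1 (congrArg Subtype.val h)
  · intro h
    exact Subtype.ext (GP.mq_eq_zero.2 h)

private theorem hz_psi_ker {w : hzW ρm T' l} :
    w ∈ (hzpsi ρm T' l).ker ↔ (w : Fin m → E) ∈ Ko ρm T' := by
  rw [AddMonoidHom.mem_ker]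
  exact xm_eq_zero

private theorem hz_phi_range (hst : ∀ g, ∀ x ∈ T', ρm g *ᵥ x ∈ T') (x : MN T' l 1) :
    (∀ g, actN l 1 ρm hst g x = x) ↔ x ∈ (hzphi ρm T' l).range := by
  constructor
  · intro h
    have h1 : lft (x : Wq T') ∈ Ac ρm T' := by
      intro g
      have h2 : actQ T' (ρm g) (x : Wq T') = x := congrArg Subtype.val (h g)
      rw [actQ] at h2
      have h3 : mq T' (ρm g *ᵥ lft (x : Wq T')) = mq T' (lft (x : Wq T')) := by rw [h2, mq_lft]
      exact mq_eq.1 h3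
    have h2 : (l : E) • lft (x : Wq T') ∈ T' := by
      have := x.lft_mem
      rw [pow_one] at this
      exact this
    exact ⟨⟨lft (x : Wq T'), h1, h2⟩, Subtype.ext (mq_lft _)⟩
  · rintro ⟨w, rfl⟩ g
    apply Subtype.ext
    show actQ T' (ρm g) (mq T' (w : Fin m → E)) = mq T' (w : Fin m → E)
    rw [actQ_mq (hst g)]
    exact mq_eq.2 (w.2.1 g)

private theorem hz_psi_range (hne : (l : E) ≠ 0) (x : XA ρm T') : l • x = 0 ↔ x ∈ (hzpsi ρm T' l).range := by
  constructor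
  · intro h
    obtain ⟨w, rfl⟩ := xm_surj ρm T' x
    rw [← map_smul, xm_eq_zero, mem_Ko] at h
    obtain ⟨k, hk, y, hy, he⟩ := h
    have he' : k + y = (l : E) • (w : Fin m → E) := he
    have hk' : (l : E)⁻¹ • k ∈ KE ρm := (KE ρm).smul_mem _ hk
    have hw1 : (w : Fin m → E) - (l : E)⁻¹ • k = (l : E)⁻¹ • y := by
      have : y = (l : E) • (w : Fin m → E) - k := by rw [← he']; abel
      rw [this, smul_sub, smul_smul, inv_mul_cancel₀ hne, one_smul]
    have hA : (l : E)⁻¹ • k ∈ Ac ρm T' := by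
      intro g
      rw [hk' g, sub_self]
      exact T'.zero_mem
    refine ⟨⟨(w : Fin m → E) - (l : E)⁻¹ • k, (Ac ρm T').sub_mem w.2 hA, ?_⟩, ?_⟩
    · show (l : E) • ((w : Fin m → E) - (l : E)⁻¹ • k) ∈ T'
      rw [hw1, smul_smul, mul_inv_cancel₀ hne, one_smul]
      exact hy
    · show xm ρm T' ⟨(w : Fin m → E) - (l : E)⁻¹ • k, _⟩ = xm ρm T' w
      rw [← sub_eq_zero, ← map_sub, xm_eq_zero, mem_Ko]
      refine ⟨-((l : E)⁻¹ • k), (KE ρm).neg_mem hk', 0, T'.zero_mem, ?_⟩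
      show -((l : E)⁻¹ • k) + 0 = ((w : Fin m → E) - (l : E)⁻¹ • k) - (w : Fin m → E)
      abel
  · rintro ⟨w, rfl⟩
    show l • xm ρm T' ⟨(w : Fin m → E), w.2.1⟩ = 0
    rw [← map_smul, xm_eq_zero, mem_Ko]
    refine ⟨0, (KE ρm).zero_mem, (l : E) • (w : Fin m → E), w.2.2, ?_⟩
    rw [zero_add]
    rfl

theorem card_fix [IsLocalRing (OE E)] {b : Matrix (Fin m) (Fin m) E} (hL : Lat b l t T')
    (hst : ∀ g, ∀ x ∈ T', ρm g *ᵥ x ∈ T') :
    Nat.card {x : MN T' l 1 // ∀ g, actN l 1 ρm hst g x = x} =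
      Nat.card (IsLocalRing.ResidueField (OE E)) ^ Module.finrank E (KE ρm) *
        Nat.card {x : XA ρm T' // l • x = 0} := by
  have e1 : Nat.card {x : MN T' l 1 // ∀ g, actN l 1 ρm hst g x = x} =
      Nat.card (hzphi ρm T' l).range :=
    Nat.card_congr (Equiv.subtypeEquivRight fun x => hz_phi_range hst x)
  have e2 : Nat.card {x : XA ρm T' // l • x = 0} = Nat.card (hzpsi ρm T' l).range :=
    Nat.card_congr (Equiv.subtypeEquivRight fun x => hz_psi_range hL.lne x)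
  have hle : (hzphi ρm T' l).ker ≤ (hzpsi ρm T' l).ker := by
    intro w hw
    rw [hz_phi_ker] at hw
    rw [hz_psi_ker, mem_Ko]
    exact ⟨0, (KE ρm).zero_mem, _, hw, zero_add _⟩
  have e3 := AddSubgroup.relIndex_mul_index hle
  rw [AddSubgroup.index_ker, AddSubgroup.index_ker, AddSubgroup.relIndex_ker] at e3
  rw [e1, e2, ← e3]
  congr 1
  -- the kernel
  let L : Submodule E (Unit → Fin m → E) :=
    (KE ρm).map (LinearEquiv.funUnique Unit E (Fin m → E)).symm.toLinearMap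
  have hmem : ∀ X : Unit → Fin m → E, X ∈ L ↔ X () ∈ KE ρm := by
    intro X
    constructor
    · rintro ⟨k, hk, rfl⟩
      exact hk
    · intro h
      exact ⟨X (), h, funext fun _ => rfl⟩
  have hfr : Module.finrank E L = Module.finrank E (KE ρm) :=
    LinearEquiv.finrank_map_eq (LinearEquiv.funUnique Unit E (Fin m → E)).symm (KE ρm)
  have hc := GP.card_lamN hL 1 L (fun X _ => ⟨‖X ()‖, fun d => le_of_eq rfl⟩)
  rw [one_mul, hfr] at hc
  rw [← hc]
  refine Nat.card_congr ⟨fun x => ⟨fun _ => x.1, ?_⟩, fun x => ⟨x.1 (), ?_⟩, fun x => rfl, fun x => rfl⟩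
  · obtain ⟨w, hw, hx⟩ := x.2
    rw [SetLike.mem_coe, hz_psi_ker, mem_Ko] at hw
    obtain ⟨k, hk, y, hy, he⟩ := hw
    refine ⟨fun _ => k, (hmem _).2 hk, fun _ => ?_⟩
    rw [← hx]
    show mq T' (w : Fin m → E) = mq T' k
    rw [mq_eq, ← he, add_sub_cancel_left]
    exact hy
  · obtain ⟨X, hX, h1⟩ := x.2
    have h2 := h1 ()
    have hk := (hmem X).1 hX
    have hA : X () ∈ Ac ρm T' := by
      intro g
      rw [hk g, sub_self]
      exact T'.zero_mem
    have hl : (l : E) • X () ∈ T' := by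
      have h3 := GP.MN.mem (x.1 ())
      rw [h2, pow_one, ← mq_smul] at h3
      exact GP.mq_eq_zero.1 h3
    refine ⟨⟨X (), hA, hl⟩, ?_, Subtype.ext h2.symm⟩
    rw [SetLike.mem_coe, hz_psi_ker, mem_Ko]
    exact ⟨X (), hk, 0, T'.zero_mem, add_zero _⟩

end Pool.Agent.Work.MP_787500_nt.OP
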