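import Mathlib
import Pool.Agent.Work.MP_787500_nt.OP.Base
import Pool.Agent.Work.MP_787500_nt.GP.L08_MN

/-!
# Module OP/Img (size M-L): the condition modulo `l` and the classes that come from the subspace

`A1 = {(X, v) | ZV TP ρ X, p (X g) = ρm g v - v for all g, l X g ∈ T for all g}`, a submodule over `OE E` of
`(P → Fin n → E) × (Fin m → E)`. `α : A1 → lamN T l 1 (ordL ..)`, `(X, v) ↦ mq T ∘ X`, is surjective.
For `(X, v) ∈ A1` put `w = l v`: `ρm g w - w = p (l X g) ∈ T'`, so `w ∈ Ac`; and `w ∈ Ap`: `X g - (ρ g (s v) - s v)` has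
`p = 0`, so it is `i (Y' g)` with `Y' g = r (X g) - r (ρ g (s v))` (`hS.dec`, `hS.rs`), `Y'` is in `ZV TP ρp`
(continuous: `n1_lin`, `n1_act`; cocycle: `i` is injective, `hS.actp`), and
`r (ρ g (s w)) - (- l Y' g) = l r (X g) = r (l X g) ∈ T'`. `γ : A1 → N ⧸ N₁`, `(X, v) ↦ class of xm (l v)`,
`N = (Ap).map xm`, `N₁ = (range (lsmul l)).comap N.subtype`.
* `γ` is surjective: for `w ∈ Ap` with `Y`, `X g = l⁻¹ (ρ g (s w) - s w - i (Y g))`, `v = l⁻¹ w` is in `A1` (`r` and `p` of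
  `l X g` are in `T'`, `hS.mem`).
* `ker α ≤ ker γ`: if `X g ∈ T` for all `g`, then `v ∈ Ac`, and `xm (l v) = l • xm v`.
* `γ (X, v) = 0` iff `mq ∘ X` is in `Yo`: `γ = 0` iff `l v = l u + k + x`, `u ∈ Ac`, `k ∈ KE`, `x ∈ T'`
  (`xm_eq_zero`, `mem_Ko`), i.e. `v = u + l⁻¹ k + l⁻¹ x`; then with `mm = mq T (s (l⁻¹ x))` (in `MN T l 1`) the vector
  `X g - (ρ g (s (l⁻¹ x)) - s (l⁻¹ x))` has `p = ρm g u - u ∈ T'` so its class is `mq T (i (r ..))`
  (`hS.mem`, `hS.dec`). Conversely if `X g - (ρ g y - y) - i z ∈ T`, `l y ∈ T`, apply `p`: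
  `ρm g (v - p y) - (v - p y) ∈ T'`, so `u = v - p y ∈ Ac` and `l v = l u + p (l y)`, `p (l y) ∈ T'`. (For `x ∈ lamN` the
  condition `Z1` in `hYo` is automatic, `KR.zv_level` with `h.rep`.)
So `card (lamN ..) = card (ker of the induced map) * card (N ⧸ N₁)` and the kernel is `lamN .. ⊓ Yo`.
(If the groups are infinite all is fine too, but `MN T l 1` is finite; `lamN` may be infinite a priori: `Nat.card` of an
exact sequence is multiplicative anyway, `AddSubgroup.card_eq_card_quotient_mul_card_addSubgroup` /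
`Submodule.card_eq_card_quotient_mul_card`.)
-/

set_option autoImplicit false
set_option linter.unusedSectionVars false

namespace Pool.Agent.Work.MP_787500_nt.OP

open Matrix
open Pool.Agent.Work.MP_787500_nt.GP (A0 IsAct d0 d1 d2 tw cup11 cup21 cup12 cup01 cup02 EvPow IsPow OE MN
  actN actQ bN bil mq lft mq_lft mq_eq mq_add mq_smul Wq Lat pr0 lamN mem_OE bil_add_left bil_add_right bil_sub_left
  bil_sub_right bil_smul_left bil_smul_right pr0_zero_of_norm actQ_mq)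
open Pool.Agent.Work.MP_787500_nt.KR (FSys Sm1 Sm2 IsChar Smooth Z1 Z2 B2 LocH LocD Pair LDual LocRep ZV PerpV zV)
open Pool.Agent.Work.MP_787500_nt.QS (QM Lag pB Zq)
open Pool.Agent.Work.MP_787500_nt.QV (QRep LagV beN laN lamE)
open Pool.Agent.Work.MP_787500_nt.PA (toE)

universe v

variable {E : Type v} [NormedField E] [NormedAlgebra ℚ_[2] E] [FiniteDimensional ℚ_[2] E] {n m : ℕ}
  {P : Type*} [Group P] {TP : FSys P} {χ : P → ℤ_[2]} {iv : (P → P → A0) → A0} {l : OE E}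
  {t : E →ₗ[ℚ_[2]] ℚ_[2]} {T : Submodule (OE E) (Fin n → E)} {β Sm J : Matrix (Fin n) (Fin n) E}
  {ρ : P → Matrix (Fin n) (Fin n) E} {i s : (Fin m → E) →ₗ[E] (Fin n → E)}
  {r p : (Fin n → E) →ₗ[E] (Fin m → E)} {T' : Submodule (OE E) (Fin m → E)}
  {b' : Matrix (Fin m) (Fin m) E} {ρp ρm : P → Matrix (Fin m) (Fin m) E}

/-- the pairs `(X, v)` -/
private def A1 (TP : FSys P) (l : OE E) (T : Submodule (OE E) (Fin n → E))
    (ρ : P → Matrix (Fin n) (Fin n) E) (p : (Fin n → E) →ₗ[E] (Fin m → E))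
    (ρm : P → Matrix (Fin m) (Fin m) E) :
    Submodule (OE E) ((P → Fin n → E) × (Fin m → E)) where
  carrier := {z | ZV TP ρ z.1 ∧ (∀ g, p (z.1 g) = ρm g *ᵥ z.2 - z.2) ∧ ∀ g, (l : E) • z.1 g ∈ T}
  add_mem' := by
    rintro z w ⟨h1, h2, h3⟩ ⟨h1', h2', h3'⟩
    refine ⟨(zV TP ρ).add_mem h1 h1', fun g => ?_, fun g => ?_⟩
    · rw [Prod.fst_add, Prod.snd_add, Pi.add_apply, map_add, h2, h2', mulVec_add]
      abel
    · rw [Prod.fst_add, Pi.add_apply, smul_add]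
      exact T.add_mem (h3 g) (h3' g)
  zero_mem' := ⟨(zV TP ρ).zero_mem, fun g => by
    rw [Prod.fst_zero, Prod.snd_zero, Pi.zero_apply, map_zero, mulVec_zero, sub_zero], fun g => by
    rw [Prod.fst_zero, Pi.zero_apply, smul_zero]
    exact T.zero_mem⟩
  smul_mem' := by
    rintro a z ⟨h1, h2, h3⟩
    refine ⟨(zV TP ρ).smul_mem (a : E) h1, fun g => ?_, fun g => ?_⟩
    · show p ((a : E) • z.1 g) = ρm g *ᵥ ((a : E) • z.2) - (a : E) • z.2
      rw [map_smul, h2, mulVec_smul, smul_sub]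
    · show (l : E) • ((a : E) • z.1 g) ∈ T
      rw [smul_comm]
      exact T.smul_mem a (h3 g)

private theorem tors {x : Fin n → E} (hx : (l : E) • x ∈ T) :
    mq T x ∈ Submodule.torsionBy (OE E) (Wq T) (l ^ 1) := by
  rw [Submodule.mem_torsionBy_iff, pow_one, ← mq_smul]
  exact (Submodule.Quotient.mk_eq_zero T).2 hx

private theorem of_tors {x : Fin n → E}
    (hx : mq T x ∈ Submodule.torsionBy (OE E) (Wq T) (l ^ 1)) : (l : E) • x ∈ T := by
  rw [Submodule.mem_torsionBy_iff, pow_one, ← mq_smul] at hx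
  exact (Submodule.Quotient.mk_eq_zero T).1 hx

private theorem scal (a : OE E) (x : Fin m → E) : a • x = (a : E) • x := rfl

/-- the class modulo `T` -/
private def al (TP : FSys P) (l : OE E) (T : Submodule (OE E) (Fin n → E))
    (ρ : P → Matrix (Fin n) (Fin n) E) (p : (Fin n → E) →ₗ[E] (Fin m → E))
    (ρm : P → Matrix (Fin m) (Fin m) E) :
    ↥(A1 TP l T ρ p ρm) →ₗ[OE E] ↥(lamN T l 1 (ordL TP ρ p ρm)) where
  toFun z := ⟨fun g => ⟨mq T (z.1.1 g), tors (z.2.2.2 g)⟩,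
    ⟨z.1.1, ⟨z.2.1, z.1.2, z.2.2.1⟩, fun _ => rfl⟩⟩
  map_add' _ _ := rfl
  map_smul' _ _ := rfl

private theorem al_surj : Function.Surjective (al TP l T ρ p ρm) := by
  rintro ⟨x, X, ⟨h1, v, h2⟩, hx⟩
  refine ⟨⟨(X, v), h1, h2, fun g => ?_⟩, ?_⟩
  · refine of_tors (T := T) ?_
    rw [← hx g]
    exact (x g).2
  · apply Subtype.ext
    funext g
    exact Subtype.ext (hx g).symm

private theorem lv_Ac (hS : Spl TP χ l t T β ρ i s r p T' b' ρp ρm)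
    (z : ↥(A1 TP l T ρ p ρm)) : (l : E) • z.1.2 ∈ Ac ρm T' := by
  intro g
  have h1 : ρm g *ᵥ ((l : E) • z.1.2) - (l : E) • z.1.2 = p ((l : E) • z.1.1 g) := by
    rw [map_smul, z.2.2.1 g, mulVec_smul, smul_sub]
  rw [h1]
  exact hS.pT (z.2.2.2 g)

/-- `(X, v) ↦ l v` -/
private def lv (hS : Spl TP χ l t T β ρ i s r p T' b' ρp ρm) :
    ↥(A1 TP l T ρ p ρm) →ₗ[OE E] ↥(Ac ρm T') where
  toFun z := ⟨(l : E) • z.1.2, lv_Ac hS z⟩
  map_add' z w := Subtype.ext (smul_add (l : E) z.1.2 w.1.2)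
  map_smul' a z := Subtype.ext (smul_comm (l : E) (a : E) z.1.2)

private theorem lv_Ap (h : QRep TP χ l t T β Sm J ρ)
    (hS : Spl TP χ l t T β ρ i s r p T' b' ρp ρm) (z : ↥(A1 TP l T ρ p ρm)) :
    lv hS z ∈ Ap TP ρ s r ρp ρm T' := by
  have hU : ZV TP ρ (z.1.1 - fun g => ρ g *ᵥ s z.1.2 - s z.1.2) :=
    (zV TP ρ).sub_mem z.2.1 (cob_zv h.rep (s z.1.2))
  set U : P → Fin n → E := z.1.1 - fun g => ρ g *ᵥ s z.1.2 - s z.1.2 with hUd
  have hUe : ∀ g, U g = z.1.1 g - (ρ g *ᵥ s z.1.2 - s z.1.2) := fun g => rfl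
  have hp : ∀ g, p (U g) = 0 := by
    intro g
    rw [hUe, map_sub, map_sub, hS.actm, hS.ps, z.2.2.1 g, sub_self]
  have hi : ∀ g, i (r (U g)) = U g := by
    intro g
    have h1 := hS.dec (U g)
    rwa [hp, map_zero, add_zero] at h1
  have hY : ZV TP ρp (fun g => r (U g)) := by
    refine ⟨n1_lin r hU.1, fun g u => ?_⟩
    show r (U (g * u)) = r (U g) + ρp g *ᵥ r (U u)
    rw [hU.2, map_add]
    congr 1
    conv_lhs => rw [← hi u]
    rw [hS.actp, hS.ri]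
  rw [mem_Ap]
  refine ⟨(-(l : E)) • fun g => r (U g), (zV TP ρp).smul_mem _ hY, fun g => ?_⟩
  have h2 : r (ρ g *ᵥ s ((lv hS z : ↥(Ac ρm T')) : Fin m → E)) -
      ((-(l : E)) • fun g => r (U g)) g = r ((l : E) • z.1.1 g) := by
    show r (ρ g *ᵥ s ((l : E) • z.1.2)) - (-(l : E)) • r (U g) = _
    rw [hUe, map_smul, mulVec_smul, map_smul, map_sub, map_sub, hS.rs, sub_zero, map_smul, neg_smul,
      smul_sub]
    abel
  rw [h2]
  exact hS.rT (z.2.2.2 g)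

/-- the class of `l v` -/
private def ga (h : QRep TP χ l t T β Sm J ρ) (hS : Spl TP χ l t T β ρ i s r p T' b' ρp ρm) :
    ↥(A1 TP l T ρ p ρm) →ₗ[OE E] (↥((Ap TP ρ s r ρp ρm T').map (xm ρm T')) ⧸
          (LinearMap.range (LinearMap.lsmul (OE E) (XA ρm T') l)).comap
            ((Ap TP ρ s r ρp ρm T').map (xm ρm T')).subtype) :=
  (Submodule.mkQ _).comp (((xm ρm T').comp (lv hS)).codRestrict
    ((Ap TP ρ s r ρp ρm T').map (xm ρm T')) fun z => ⟨lv hS z, lv_Ap h hS z, rfl⟩)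

private theorem ga_zero (h : QRep TP χ l t T β Sm J ρ)
    (hS : Spl TP χ l t T β ρ i s r p T' b' ρp ρm) (z : ↥(A1 TP l T ρ p ρm)) :
    ga h hS z = 0 ↔ ∃ u : ↥(Ac ρm T'), (l : E) • z.1.2 - (l : E) • (u : Fin m → E) ∈ Ko ρm T' := by
  rw [ga, LinearMap.comp_apply, Submodule.mkQ_apply, Submodule.Quotient.mk_eq_zero,
    Submodule.mem_comap]
  constructor
  · rintro ⟨y, hy⟩
    obtain ⟨u, rfl⟩ := xm_surj ρm T' y
    refine ⟨u, ?_⟩
    have h1 : xm ρm T' (lv hS z - l • u) = 0 := by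
      rw [map_sub, map_smul, sub_eq_zero]
      exact hy.symm
    rw [xm_eq_zero] at h1
    exact h1
  · rintro ⟨u, hu⟩
    refine ⟨xm ρm T' u, ?_⟩
    have h1 : xm ρm T' (lv hS z - l • u) = 0 := by
      rw [xm_eq_zero]
      exact hu
    rw [map_sub, map_smul, sub_eq_zero] at h1
    exact h1.symm

private theorem ga_surj (h : QRep TP χ l t T β Sm J ρ)
    (hS : Spl TP χ l t T β ρ i s r p T' b' ρp ρm) : Function.Surjective (ga h hS) := by
  intro y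
  obtain ⟨⟨_, w, hw, rfl⟩, rfl⟩ := Submodule.mkQ_surjective _ y
  obtain ⟨Y, hY, hYw⟩ := hw
  have hl : (l : E) ≠ 0 := h.lat.lne
  have hiY : ZV TP ρ (fun g => i (Y g)) := by
    refine ⟨n1_lin i hY.1, fun g u => ?_⟩
    show i (Y (g * u)) = i (Y g) + ρ g *ᵥ i (Y u)
    rw [hY.2, map_add, hS.actp]
  have hX : ZV TP ρ ((l : E)⁻¹ • ((fun g => ρ g *ᵥ s (w : Fin m → E) - s (w : Fin m → E)) -
      fun g => i (Y g))) :=
    (zV TP ρ).smul_mem _ ((zV TP ρ).sub_mem (cob_zv h.rep (s (w : Fin m → E))) hiY)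
  set X : P → Fin n → E := (l : E)⁻¹ • ((fun g => ρ g *ᵥ s (w : Fin m → E) - s (w : Fin m → E)) -
      fun g => i (Y g)) with hXd
  have hXe : ∀ g, (l : E) • X g = ρ g *ᵥ s (w : Fin m → E) - s (w : Fin m → E) - i (Y g) := by
    intro g
    show (l : E) • ((l : E)⁻¹ • (ρ g *ᵥ s (w : Fin m → E) - s (w : Fin m → E) - i (Y g))) = _
    rw [smul_smul, mul_inv_cancel₀ hl, one_smul]
  have hXv : ∀ g, p (X g) = ρm g *ᵥ ((l : E)⁻¹ • (w : Fin m → E)) -
      (l : E)⁻¹ • (w : Fin m → E) := by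
    intro g
    show p ((l : E)⁻¹ • (ρ g *ᵥ s (w : Fin m → E) - s (w : Fin m → E) - i (Y g))) = _
    rw [map_smul, map_sub, map_sub, hS.actm, hS.ps, hS.pi, sub_zero, mulVec_smul, smul_sub]
  have hXT : ∀ g, (l : E) • X g ∈ T := by
    intro g
    rw [hXe, hS.mem]
    constructor
    · rw [map_sub, map_sub, hS.rs, hS.ri, sub_zero]
      exact hYw g
    · rw [map_sub, map_sub, hS.actm, hS.ps, hS.pi, sub_zero]
      exact w.2 g
  refine ⟨⟨(X, (l : E)⁻¹ • (w : Fin m → E)), hX, hXv, hXT⟩, ?_⟩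
  rw [ga, LinearMap.comp_apply]
  congr 1
  apply Subtype.ext
  show xm ρm T' (lv hS _) = xm ρm T' w
  congr 1
  apply Subtype.ext
  show (l : E) • ((l : E)⁻¹ • (w : Fin m → E)) = w
  rw [smul_smul, mul_inv_cancel₀ hl, one_smul]

private theorem ga_iff (h : QRep TP χ l t T β Sm J ρ)
    (hS : Spl TP χ l t T β ρ i s r p T' b' ρp ρm)
    {Yo : Submodule (OE E) (P → MN T l 1)}
    (hYo : ∀ x, x ∈ Yo ↔ Z1 TP (actN l 1 ρ h.rep.st) x ∧
      ∃ mm : MN T l 1, ∀ g, ∃ z, ((x g - (actN l 1 ρ h.rep.st g mm - mm) : MN T l 1) : Wq T) =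
        mq T (i z)) (z : ↥(A1 TP l T ρ p ρm)) :
    ga h hS z = 0 ↔ (al TP l T ρ p ρm z : P → MN T l 1) ∈ Yo := by
  have hl : (l : E) ≠ 0 := h.lat.lne
  rw [ga_zero, hYo]
  constructor
  · rintro ⟨u, hu⟩
    refine ⟨KR.zv_level h.lat h.rep 1 z.2.1 fun _ => rfl, ?_⟩
    obtain ⟨k, hk, x, hx, hkx⟩ := mem_Ko.1 hu
    have hv : z.1.2 = (u : Fin m → E) + (l : E)⁻¹ • k + (l : E)⁻¹ • x := by
      rw [add_assoc, ← smul_add, hkx, ← smul_sub, smul_smul, inv_mul_cancel₀ hl, one_smul]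
      abel
    have hsx : (l : E) • s ((l : E)⁻¹ • x) ∈ T := by
      rw [← map_smul, smul_smul, mul_inv_cancel₀ hl, one_smul]
      exact hS.sT hx
    refine ⟨⟨mq T (s ((l : E)⁻¹ • x)), tors hsx⟩, fun g => ?_⟩
    have hpD : p (z.1.1 g - (ρ g *ᵥ s ((l : E)⁻¹ • x) - s ((l : E)⁻¹ • x))) =
        ρm g *ᵥ (u : Fin m → E) - u := by
      have hk' : ρm g *ᵥ ((l : E)⁻¹ • k) = (l : E)⁻¹ • k := by rw [mulVec_smul, hk g]
      rw [map_sub, map_sub, hS.actm, hS.ps, z.2.2.1 g, hv, mulVec_add, mulVec_add, hk']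
      abel
    refine ⟨r (z.1.1 g - (ρ g *ᵥ s ((l : E)⁻¹ • x) - s ((l : E)⁻¹ • x))), ?_⟩
    have h1 : ((((al TP l T ρ p ρm z : P → MN T l 1) g - (actN l 1 ρ h.rep.st g
        ⟨mq T (s ((l : E)⁻¹ • x)), tors hsx⟩ - ⟨mq T (s ((l : E)⁻¹ • x)), tors hsx⟩)) :
        MN T l 1) : Wq T) = mq T (z.1.1 g) - (actQ T (ρ g) (mq T (s ((l : E)⁻¹ • x))) -
        mq T (s ((l : E)⁻¹ • x))) := rfl
    rw [h1, actQ_mq (h.rep.st g)]
    show mq T (z.1.1 g - (ρ g *ᵥ s ((l : E)⁻¹ • x) - s ((l : E)⁻¹ • x))) = _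
    rw [mq_eq]
    have h2 := hS.dec (z.1.1 g - (ρ g *ᵥ s ((l : E)⁻¹ • x) - s ((l : E)⁻¹ • x)))
    rw [hpD] at h2
    have h3 : z.1.1 g - (ρ g *ᵥ s ((l : E)⁻¹ • x) - s ((l : E)⁻¹ • x)) -
        i (r (z.1.1 g - (ρ g *ᵥ s ((l : E)⁻¹ • x) - s ((l : E)⁻¹ • x)))) =
        s (ρm g *ᵥ (u : Fin m → E) - u) := by
      rw [sub_eq_iff_eq_add, add_comm]
      exact h2.symm
    rw [h3]
    exact hS.sT (u.2 g)
  · rintro ⟨-, mm, hmm⟩
    have hy : (l : E) • lft (mm : Wq T) ∈ T := by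
      have := mm.lft_mem
      rwa [pow_one] at this
    have hu : ∀ g, ρm g *ᵥ (z.1.2 - p (lft (mm : Wq T))) - (z.1.2 - p (lft (mm : Wq T))) ∈ T' := by
      intro g
      obtain ⟨q, hq⟩ := hmm g
      have h1 : ((((al TP l T ρ p ρm z : P → MN T l 1) g - (actN l 1 ρ h.rep.st g mm - mm)) :
        MN T l 1) : Wq T) = mq T (z.1.1 g) - (actQ T (ρ g) (mq T (lft (mm : Wq T))) -
        mq T (lft (mm : Wq T))) := by
        rw [mq_lft]
        rfl
      rw [h1, actQ_mq (h.rep.st g)] at hq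
      have h2 : mq T (z.1.1 g - (ρ g *ᵥ lft (mm : Wq T) - lft (mm : Wq T))) = mq T (i q) := hq
      rw [mq_eq] at h2
      have h3 := hS.pT h2
      have h4 : p (z.1.1 g - (ρ g *ᵥ lft (mm : Wq T) - lft (mm : Wq T)) - i q) =
          ρm g *ᵥ (z.1.2 - p (lft (mm : Wq T))) - (z.1.2 - p (lft (mm : Wq T))) := by
        rw [map_sub, map_sub, map_sub, hS.actm, hS.pi, z.2.2.1 g, mulVec_sub]
        abel
      rwa [h4] at h3
    refine ⟨⟨z.1.2 - p (lft (mm : Wq T)), hu⟩, ?_⟩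
    rw [mem_Ko]
    refine ⟨0, (KE ρm).zero_mem, p ((l : E) • lft (mm : Wq T)), hS.pT hy, ?_⟩
    show 0 + p ((l : E) • lft (mm : Wq T)) = (l : E) • z.1.2 - (l : E) • (z.1.2 - p (lft (mm : Wq T)))
    rw [zero_add, map_smul, smul_sub]
    abel

private theorem card_aux {R M M₂ M₃ : Type*} [Ring R] [AddCommGroup M] [AddCommGroup M₂]
    [AddCommGroup M₃] [Module R M] [Module R M₂] [Module R M₃] (α : M →ₗ[R] M₂) (γ : M →ₗ[R] M₃)
    (hα : Function.Surjective α) (hγ : Function.Surjective γ) (Y : M₂ → Prop) (hY : Y 0)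
    (h : ∀ z, γ z = 0 ↔ Y (α z)) : Nat.card M₂ = Nat.card {x : M₂ // Y x} * Nat.card M₃ := by
  have hker : LinearMap.ker α ≤ LinearMap.ker γ := by
    intro z hz
    rw [LinearMap.mem_ker] at hz ⊢
    rw [h, hz]
    exact hY
  set e := α.quotKerEquivOfSurjective hα with he
  set f := ((LinearMap.ker α).liftQ γ hker).comp e.symm.toLinearMap with hf
  have hfa : ∀ z, f (α z) = γ z := by
    intro z
    have h1 : e.symm (α z) = (LinearMap.ker α).mkQ z := by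
      rw [LinearEquiv.symm_apply_eq]
      rfl
    rw [hf, LinearMap.comp_apply, LinearEquiv.coe_coe, h1, Submodule.mkQ_apply,
      Submodule.liftQ_apply]
  have hfs : Function.Surjective f := by
    intro y
    obtain ⟨z, rfl⟩ := hγ y
    exact ⟨_, hfa z⟩
  have hfk : ∀ x, x ∈ LinearMap.ker f ↔ Y x := by
    intro x
    obtain ⟨z, rfl⟩ := hα x
    rw [LinearMap.mem_ker, hfa]
    exact h z
  rw [Submodule.card_eq_card_quotient_mul_card (LinearMap.ker f)]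
  congr 1
  · exact Nat.card_congr (Equiv.subtypeEquivRight hfk)
  · exact Nat.card_congr (f.quotKerEquivOfSurjective hfs).toEquiv

theorem card_img (h : QRep TP χ l t T β Sm J ρ) (hS : Spl TP χ l t T β ρ i s r p T' b' ρp ρm)
    (Yo : Submodule (OE E) (P → MN T l 1))
    (hYo : ∀ x, x ∈ Yo ↔ Z1 TP (actN l 1 ρ h.rep.st) x ∧
      ∃ mm : MN T l 1, ∀ g, ∃ z, ((x g - (actN l 1 ρ h.rep.st g mm - mm) : MN T l 1) : Wq T) =
        mq T (i z)) :
    Nat.card ↥(lamN T l 1 (ordL TP ρ p ρm)) =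
      Nat.card ↥(lamN T l 1 (ordL TP ρ p ρm) ⊓ Yo) *
        Nat.card (↥((Ap TP ρ s r ρp ρm T').map (xm ρm T')) ⧸
          (LinearMap.range (LinearMap.lsmul (OE E) (XA ρm T') l)).comap
            ((Ap TP ρ s r ρp ρm T').map (xm ρm T')).subtype) := by
  rw [card_aux (R := OE E) (M := ↥(A1 TP l T ρ p ρm))
    (M₂ := ↥(lamN T l 1 (ordL TP ρ p ρm))) (al TP l T ρ p ρm) (ga h hS) al_surj (ga_surj h hS)
    (fun x => (x : P → MN T l 1) ∈ Yo) Yo.zero_mem (ga_iff h hS hYo)]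
  congr 1
  exact Nat.card_congr ⟨fun x => ⟨(x : ↥(lamN T l 1 (ordL TP ρ p ρm))), x.1.2, x.2⟩,
      fun x => ⟨⟨x, x.2.1⟩, x.2.2⟩, fun x => rfl, fun x => rfl⟩

end Pool.Agent.Work.MP_787500_nt.OP
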