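import Mathlib
import Pool.Agent.Work.MP_787500_nt.OP.Form
import Pool.Agent.Work.MP_787500_nt.OP.Alg
import Pool.Agent.Work.MP_787500_nt.OP.Fin
import Pool.Agent.Work.MP_787500_nt.OP.HZ
import Pool.Agent.Work.MP_787500_nt.OP.Img

/-!
# Module OP/Dist (size S): THE DISTANCE THEOREM at an ordinary place

`q` the number of elements of the residue field, `X = XA ρm T'`, `N = (Ap).map xm`, `a = card (N ⧸ N ∩ l X)`.
`card_img`: `card Y₁ = card (Y₁ ⊓ Yo) * a`; `rad_even` for the form of `exists_form`: `a * card X[l]` is an even power of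
`q` (`finite_XA`, `GP.res_finite`); `card_fix`: `card H⁰ = q ^ κ * card X[l]`. So the product is
`(card (Y₁ ⊓ Yo) * q ^ κ) ^ 2 * (a * card X[l])`. `Y₁ ⊓ Yo` is finite (a submodule of `lamN T l 1 (ordL ..)`; it consists
of cocycles at level 1 (`KR.zv_level`), finitely many by `(H.ld (pair_MN ..)).fin`, KR/L08.lean) so its number of
elements is a power of `q` (`GP.card_pow`), `GP.evPow_sq`, `GP.evPow_mul`.
-/

set_option autoImplicit false
set_option linter.unusedSectionVars false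

namespace Pool.Agent.Work.MP_787500_nt.OP

open Matrix
open Pool.Agent.Work.MP_787500_nt.GP (A0 IsAct d0 d1 d2 tw cup11 cup21 cup12 cup01 cup02 EvPow IsPow OE MN
  actN actQ bN bil mq lft mq_lft mq_eq mq_add mq_smul Wq Lat pr0 lamN mem_OE bil_add_left bil_add_right bil_sub_left
  bil_sub_right bil_smul_left bil_smul_right pr0_zero_of_norm actQ_mq)
open Pool.Agent.Work.MP_787500_nt.KR (FSys Sm1 Sm2 IsChar Smooth Z1 Z2 B2 LocH LocD Pair LDual LocRep ZV PerpV zV)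
open Pool.Agent.Work.MP_787500_nt.QS (QM Lag pB Zq)
open Pool.Agent.Work.MP_787500_nt.QV (QRep LagV beN laN lamE)
open Pool.Agent.Work.MP_787500_nt.PA (toE)

universe v

variable {E : Type v} [NormedField E] [NormedAlgebra ℚ_[2] E] [FiniteDimensional ℚ_[2] E] {n m : ℕ}
  {P : Type*} [Group P] {TP : FSys P} {χ : P → ℤ_[2]} {iv : (P → P → A0) → A0} {l : OE E}
  {t : E →ₗ[ℚ_[2]] ℚ_[2]} {T : Submodule (OE E) (Fin n → E)} {β Sm J : Matrix (Fin n) (Fin n) E}
  {ρ : P → Matrix (Fin n) (Fin n) E} {i s : (Fin m → E) →ₗ[E] (Fin n → E)}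
  {r p : (Fin n → E) →ₗ[E] (Fin m → E)} {T' : Submodule (OE E) (Fin m → E)}
  {b' : Matrix (Fin m) (Fin m) E} {ρp ρm : P → Matrix (Fin m) (Fin m) E}

theorem dist_even [IsLocalRing (OE E)] (H : LocD.{v} TP χ iv) (h : QRep TP χ l t T β Sm J ρ)
    (hS : Spl TP χ l t T β ρ i s r p T' b' ρp ρm) (Yo : Submodule (OE E) (P → MN T l 1))
    (hYo : ∀ x, x ∈ Yo ↔ Z1 TP (actN l 1 ρ h.rep.st) x ∧
      ∃ mm : MN T l 1, ∀ g, ∃ z, ((x g - (actN l 1 ρ h.rep.st g mm - mm) : MN T l 1) : Wq T) =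
        mq T (i z)) :
    EvPow (Nat.card (IsLocalRing.ResidueField (OE E)))
      (Nat.card ↥(lamN T l 1 (ordL TP ρ p ρm)) *
        Nat.card ↥(lamN T l 1 (ordL TP ρ p ρm) ⊓ Yo) *
        Nat.card {x : MN T' l 1 // ∀ g, actN l 1 ρm hS.rep.st g x = x} *
        Nat.card (IsLocalRing.ResidueField (OE E)) ^ Module.finrank E (KE ρm)) := by
  obtain ⟨B, -, hbal, halt, hN⟩ := exists_form H h hS
  have hfX : Finite (XA ρm T') := finite_XA hS.lat hS.rep.st
  have hfR : Finite (IsLocalRing.ResidueField (OE E)) := GP.res_finite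
  have h1 := rad_even (O := OE E) B hbal halt ((Ap TP ρ s r ρp ρm T').map (xm ρm T')) hN l
  have h2 := card_img h hS Yo hYo
  have h3 := card_fix (ρm := ρm) hS.lat hS.rep.st
  have hfM : Finite (MN T l 1) := GP.MN_finite h.lat 1
  have hfZ := (H.ld (KR.pair_MN h.lat h.rep 1)).fin
  have hfin : Finite ↥(lamN T l 1 (ordL TP ρ p ρm) ⊓ Yo) :=
    Finite.of_injective (fun x : ↥(lamN T l 1 (ordL TP ρ p ρm) ⊓ Yo) =>
      (⟨x.1, ((hYo _).1 x.2.2).1⟩ : {x : P → MN T l 1 // Z1 TP (actN l 1 ρ h.rep.st) x}))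
      (fun x y hxy => Subtype.ext (Subtype.mk.inj hxy))
  have h4 := GP.card_pow (O := OE E) ↥(lamN T l 1 (ordL TP ρ p ρm) ⊓ Yo)
  have h5 := GP.isPow_mul h4 (⟨Module.finrank E (KE ρm), rfl⟩ :
    IsPow (Nat.card (IsLocalRing.ResidueField (OE E)))
      (Nat.card (IsLocalRing.ResidueField (OE E)) ^ Module.finrank E (KE ρm)))
  have h6 := GP.evPow_mul (GP.evPow_sq h5) h1
  rw [h2, h3]
  convert h6 using 1
  ring

end Pool.Agent.Work.MP_787500_nt.OP
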