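import Mathlib
import Pool.Agent.Work.MP_787500_nt.OP.Base
import Pool.Agent.Work.MP_787500_nt.OP.Fin

/-!
# Module OP/Dual (size M): the orthogonal of all continuous cocycles

NOTATION: `M_N⁺`, `M_N⁻` the modules `MN T l N` with the actions of `ρ'` and `ρ`, `Λ_N = lamN T l N (zV TP ρ')`.
1. By `exists_bd` (OP/Fin) there is `c` with: every `w ∈ Ac ρ T` is `k + w₁`, `k ∈ KE ρ`, `l ^ c w₁ ∈ T`.
2. `l ^ c • Z1 (M_N⁺) ⊆ Λ_N` for all `N`: let `y ∈ Z1 (M_N⁺)`. By `KR.perp_iff` for `hr : LocRep TP χ T b ρ ρ'` and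
   `L = B¹(ρ) = {X | ∃ v, ∀ g, X g = ρ g v - v}`, `l ^ c • y ∈ Λ_N` iff `RN`, i.e. `iv (x ∪ l ^ c y) = 0` for all
   `x ∈ lamN T l N L`; `x g = mq T (ρ g v - v)`, `w = l ^ N v ∈ Ac ρ T`, `w = k + w₁`, so with `v₁ = l ^ (-N) w₁`
   `x g = mq T (ρ g v₁ - v₁)` and `l ^ c x = d0 (mq T (l ^ c v₁))`, `mq T (l ^ c v₁) ∈ MN T l N`. So
   `iv (x ∪ l ^ c y) = iv ((l ^ c x) ∪ y) = 0` (`GP.bN_bal`; cup product of a coboundary and a cocycle:
   `KR` Leibniz rule `cup01`, `H.cob`; see the proof of `l10_key` in KR/L10.lean).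
3. Let `Y` be as in the theorem, WLOG with values in `T` (multiply by a power of `l`: `KR.zv_bdd`, `opn`). For `N ≥ 0`
   let `y g = mq T (l ^ (-N) Y g) ∈ MN T l N`, an element of `Z1 (M_N⁻)`. For `x ∈ Z1 (M_N⁺)`:
   `iv (x ∪ l ^ c y) = iv (l ^ c x ∪ y) = 0` (roles: `hr.swap = rep_swap`), since `l ^ c x ∈ Λ_N` has a lift
   `X ∈ zV TP ρ'` and `cupE` of `X` and `Y` is in `KP.BE` (`KR.be_inv_zero`, `KR.cup_level`). By
   `(H.ld (KR.pair_MN ..)).one'` (local duality, KR/L08.lean) `l ^ c y = d0 m`: there is `m' ∈ E ^ n` with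
   `l ^ c l ^ (-N) Y g - (ρ g m' - m') ∈ T` for all `g`. For `N = c + k`: `Y g - l ^ k (ρ g m' - m') ∈ l ^ k T`. So `Y` is
   in the space of coboundaries, which has finite dimension (image of `E ^ n`): `KR.fd_closed` (KR/L15.lean).
-/

set_option autoImplicit false
set_option linter.unusedSectionVars false

namespace Pool.Agent.Work.MP_787500_nt.OP

open Matrix
open Pool.Agent.Work.MP_787500_nt.GP (A0 IsAct d0 d1 d2 tw cup11 cup21 cup12 cup01 cup02 EvPow IsPow OE MN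
  actN actQ bN bil mq lft mq_lft mq_eq mq_add mq_smul Wq Lat pr0 lamN mem_OE bil_add_left bil_add_right bil_sub_left
  bil_sub_right bil_smul_left bil_smul_right pr0_zero_of_norm actQ_mq)
open Pool.Agent.Work.MP_787500_nt.KR (FSys Sm1 Sm2 IsChar Smooth Z1 Z2 B2 LocH LocD Pair LDual LocRep ZV PerpV zV)
open Pool.Agent.Work.MP_787500_nt.QS (QM Lag pB Zq)
open Pool.Agent.Work.MP_787500_nt.QV (QRep LagV beN laN lamE)
open Pool.Agent.Work.MP_787500_nt.PA (toE)

universe v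

variable {E : Type v} [NormedField E] [NormedAlgebra ℚ_[2] E] [FiniteDimensional ℚ_[2] E] {n m : ℕ}
  {P : Type*} [Group P] {TP : FSys P} {χ : P → ℤ_[2]} {iv : (P → P → A0) → A0} {l : OE E}
  {t : E →ₗ[ℚ_[2]] ℚ_[2]} {T : Submodule (OE E) (Fin n → E)} {β Sm J : Matrix (Fin n) (Fin n) E}
  {ρ : P → Matrix (Fin n) (Fin n) E} {i s : (Fin m → E) →ₗ[E] (Fin n → E)}
  {r p : (Fin n → E) →ₗ[E] (Fin m → E)} {T' : Submodule (OE E) (Fin m → E)}
  {b' : Matrix (Fin m) (Fin m) E} {ρp ρm : P → Matrix (Fin m) (Fin m) E}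

section aux

variable {b : Matrix (Fin m) (Fin m) E} {σ σ' : P → Matrix (Fin m) (Fin m) E}

/-- the coboundaries of the vectors -/
private def cobL (σ : P → Matrix (Fin m) (Fin m) E) : (Fin m → E) →ₗ[E] (P → Fin m → E) where
  toFun v := fun g => σ g *ᵥ v - v
  map_add' x y := by
    funext g
    simp only [Pi.add_apply, mulVec_add]
    abel
  map_smul' a x := by
    funext g
    simp only [Pi.smul_apply, mulVec_smul, RingHom.id_apply, smul_sub]

private theorem actN_lin {N : ℕ} (hst : ∀ g, ∀ x ∈ T', σ g *ᵥ x ∈ T') (g : P) (a : OE E)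
    (x : MN T' l N) : actN l N σ hst g (a • x) = a • actN l N σ hst g x :=
  Subtype.ext (KR.actQ_smul (hst g) a (x : Wq T'))

private theorem z1_smul {N : ℕ} (hst : ∀ g, ∀ x ∈ T', σ g *ᵥ x ∈ T') (a : OE E)
    {y : P → MN T' l N} (hy : Z1 TP (actN l N σ hst) y) :
    Z1 TP (actN l N σ hst) (fun g => a • y g) := by
  obtain ⟨⟨W, hW, h1⟩, h2⟩ := hy
  refine ⟨⟨W, hW, fun g w hw => ?_⟩, fun g u => ?_⟩
  · show a • y (g * w) = a • y g
    rw [h1 g w hw]
  · show a • y (g * u) = a • y g + actN l N σ hst g (a • y u)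
    rw [h2, smul_add, actN_lin]

private theorem cup_bal (hL : Lat b l t T') {N : ℕ} (hst : ∀ g, ∀ x ∈ T', σ g *ᵥ x ∈ T')
    (a : OE E) (x y : P → MN T' l N) :
    cup11 (actN l N σ hst) (bN hL N) x (fun g => a • y g) =
      cup11 (actN l N σ hst) (bN hL N) (fun g => a • x g) y := by
  funext g u
  simp only [cup11]
  rw [actN_lin, ← GP.bN_bal]

/-- a multiple of every cocycle at a finite level lifts to a cocycle -/
private theorem dual_lam (H : LocD.{v} TP χ iv) (hL : Lat b l t T')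
    (hr : LocRep TP χ T' b σ σ') {c : ℕ}
    (hc : ∀ w ∈ Ac σ T', ∃ k ∈ KE σ, (l : E) ^ c • (w - k) ∈ T') (M : ℕ) {y : P → MN T' l M}
    (hy : Z1 TP (actN l M σ' hr.st') y) :
    ∃ X, ZV TP σ' X ∧ ∀ g, ((l ^ c • y g : MN T' l M) : Wq T') = mq T' (X g) := by
  have hp := KR.pair_MN hL hr M
  have hlM : (l : E) ^ M ≠ 0 := pow_ne_zero _ hL.lne
  have hL1 : ∀ X ∈ LinearMap.range (cobL σ), ZV TP σ X := by
    rintro _ ⟨v, rfl⟩
    exact cob_zv hr v
  have key : KR.RN iv hL hr (LinearMap.range (cobL σ)) M (fun g => l ^ c • y g) := by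
    refine ⟨z1_smul hr.st' (l ^ c) hy, fun x hx => ?_⟩
    obtain ⟨_, ⟨v, rfl⟩, hX⟩ := hx
    have hw : (l : E) ^ M • v ∈ Ac σ T' := by
      intro g
      have h1 := (x g).mem
      rw [hX g, ← mq_smul, GP.mq_eq_zero] at h1
      have h2 : σ g *ᵥ ((l : E) ^ M • v) - (l : E) ^ M • v = ((l ^ M : OE E) : E) • cobL σ v g := by
        show _ = (l : E) ^ M • (σ g *ᵥ v - v)
        rw [mulVec_smul, smul_sub]
      rw [h2]
      exact h1
    obtain ⟨k, hk, hck⟩ := hc _ hw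
    have hz1 : l ^ M • mq T' ((l : E) ^ c • (v - ((l : E) ^ M)⁻¹ • k)) = 0 := by
      rw [← mq_smul, GP.mq_eq_zero]
      have h2 : ((l ^ M : OE E) : E) • (l : E) ^ c • (v - ((l : E) ^ M)⁻¹ • k) =
          (l : E) ^ c • ((l : E) ^ M • v - k) := by
        show (l : E) ^ M • (l : E) ^ c • (v - ((l : E) ^ M)⁻¹ • k) = _
        rw [smul_comm, smul_sub ((l : E) ^ M), smul_smul ((l : E) ^ M), mul_inv_cancel₀ hlM,
          one_smul]
      rw [h2]
      exact hck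
    let z : MN T' l M := ⟨mq T' ((l : E) ^ c • (v - ((l : E) ^ M)⁻¹ • k)), by
      rw [Submodule.mem_torsionBy_iff]
      exact hz1⟩
    have hz : ∀ g, l ^ c • x g = d0 (actN l M σ hr.st) z g := by
      intro g
      apply Subtype.ext
      show l ^ c • (x g : Wq T') = actQ T' (σ g) (mq T' ((l : E) ^ c • (v - ((l : E) ^ M)⁻¹ • k))) -
        mq T' ((l : E) ^ c • (v - ((l : E) ^ M)⁻¹ • k))
      rw [hX g, ← mq_smul, actQ_mq (hr.st g), ← GP.mq_sub]
      congr 1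
      show (l : E) ^ c • (σ g *ᵥ v - v) = _
      have h3 : σ g *ᵥ k = k := hk g
      rw [mulVec_smul, mulVec_sub, mulVec_smul, h3, ← smul_sub]
      congr 1
      abel
    have e : cup11 (actN l M σ' hr.st') (bN hL M) x (fun g => l ^ c • y g) =
        d1 (tw χ) (cup01 (bN hL M) z y) := by
      rw [cup_bal]
      funext a a'
      rw [KR.leib01 hp.eqv z y a a']
      have h4 : d1 (actN l M σ' hr.st') y a a' = 0 := by
        show y a + actN l M σ' hr.st' a (y a') - y (a * a') = 0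
        rw [hy.2 a a', sub_self]
      have h5 : (fun g => l ^ c • x g) = d0 (actN l M σ hr.st) z := funext hz
      rw [h5]
      simp only [cup02, h4, map_zero, add_zero]
    rw [e]
    refine H.cob _ ?_
    obtain ⟨W, hW, h1⟩ := hy.1
    exact ⟨W, hW, fun g w hw => by simp only [cup01, h1 g w hw]⟩
  obtain ⟨X, hX, h1⟩ := (KR.perp_iff H hL hr hL1 (fun v => ⟨v, rfl⟩) _).1 key
  exact ⟨X, hX.1, h1⟩

end aux

theorem perp_all {b : Matrix (Fin m) (Fin m) E} (H : LocD.{v} TP χ iv) (hL : Lat b l t T')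
    {σ σ' : P → Matrix (Fin m) (Fin m) E} (hr : LocRep TP χ T' b σ σ') {Y : P → Fin m → E}
    (hY : ZV TP σ Y)
    (hperp : ∀ X, ZV TP σ' X → KP.BE TP χ (fun g u => bil b (X g) (σ g *ᵥ Y u))) :
    ∃ v, ∀ g, Y g = σ g *ᵥ v - v := by
  obtain ⟨c, hc⟩ := exists_bd hL σ
  have hs : LocRep TP χ T' b σ' σ := rep_swap hL.symm hr
  have hZ : PerpV TP χ b σ (zV TP σ') Y := ⟨hY, fun X hX => hperp X hX⟩
  have hlk : ∀ k : ℕ, (l : E) ^ k ≠ 0 := fun k => pow_ne_zero _ hL.lne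
  obtain ⟨a, ha⟩ : ∃ a : ℕ, ∀ g, (l : E) ^ a • Y g ∈ T' := by
    obtain ⟨C, hC⟩ := KR.zv_bdd hY
    obtain ⟨r, hr0, hT⟩ := hL.opn
    have h3 : Filter.Tendsto (fun k : ℕ => ‖(l : E)‖ ^ k * |C|) Filter.atTop (nhds 0) := by
      have := (tendsto_pow_atTop_nhds_zero_of_lt_one (norm_nonneg _) hL.llt).mul_const |C|
      rwa [zero_mul] at this
    obtain ⟨k, hk⟩ := (h3.eventually_lt_const hr0).exists
    refine ⟨k, fun g => hT _ ?_⟩
    rw [norm_smul, norm_pow]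
    exact (mul_le_mul_of_nonneg_left ((hC g).trans (le_abs_self C)) (by positivity)).trans_lt hk
  have hmem : Y ∈ LinearMap.range (cobL σ) := by
    refine KR.fd_closed hL (LinearMap.range (cobL σ)) Y fun k => ?_
    have hN : ∀ g, l ^ (c + k + a) • mq T' (((l : E) ^ (c + k))⁻¹ • Y g) = 0 := by
      intro g
      rw [← mq_smul, GP.mq_eq_zero]
      have h2 : ((l ^ (c + k + a) : OE E) : E) • ((l : E) ^ (c + k))⁻¹ • Y g =
          (l : E) ^ a • Y g := by
        show (l : E) ^ (c + k + a) • ((l : E) ^ (c + k))⁻¹ • Y g = _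
        rw [smul_smul, pow_add (l : E) (c + k) a, mul_comm ((l : E) ^ (c + k)), mul_assoc,
          mul_inv_cancel₀ (hlk _), mul_one]
      rw [h2]
      exact ha g
    let y : P → MN T' l (c + k + a) := fun g => ⟨mq T' (((l : E) ^ (c + k))⁻¹ • Y g), by
      rw [Submodule.mem_torsionBy_iff]
      exact hN g⟩
    have hY' : PerpV TP χ b σ (zV TP σ') (((l : E) ^ (c + k))⁻¹ • Y) :=
      (KR.perpSub TP χ b σ (zV TP σ')).smul_mem _ hZ
    have hyv : ∀ g, (y g : Wq T') = mq T' ((((l : E) ^ (c + k))⁻¹ • Y) g) := fun g => rfl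
    have hyz : Z1 TP (actN l (c + k + a) σ hs.st') y := KR.zv_level' hL hs _ hY'.1 hyv
    have hfin := GP.MN_finite hL (c + k + a)
    obtain ⟨m', hm'⟩ := (H.ld (KR.pair_MN hL hs (c + k + a))).one' (fun g => l ^ c • y g)
      (z1_smul hs.st' (l ^ c) hyz) (fun x hx => by
        rw [cup_bal]
        obtain ⟨X, hX, h1⟩ := dual_lam H hL hr hc (c + k + a) hx
        exact KR.perpV_level H hL hs hY' _ hyv ⟨X, hX, h1⟩)
    refine ⟨cobL σ (lft (m' : Wq T')), ⟨_, rfl⟩, fun g => ?_⟩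
    have h1 : l ^ c • mq T' (((l : E) ^ (c + k))⁻¹ • Y g) =
        mq T' (σ g *ᵥ lft (m' : Wq T')) - (m' : Wq T') := by
      have := congrArg (fun q : MN T' l (c + k + a) => (q : Wq T')) (congrFun hm' g)
      exact this
    have h2 : ((l ^ c : OE E) : E) • ((l : E) ^ (c + k))⁻¹ • Y g - cobL σ (lft (m' : Wq T')) g ∈ T' := by
      rw [← GP.mq_eq, mq_smul, h1]
      show mq T' (σ g *ᵥ lft (m' : Wq T')) - (m' : Wq T') =
        mq T' (σ g *ᵥ lft (m' : Wq T') - lft (m' : Wq T'))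
      rw [GP.mq_sub, mq_lft]
    refine ⟨_, h2, ?_⟩
    have h3 : ((l ^ c : OE E) : E) • ((l : E) ^ (c + k))⁻¹ • Y g = ((l : E) ^ k)⁻¹ • Y g := by
      show (l : E) ^ c • ((l : E) ^ (c + k))⁻¹ • Y g = _
      rw [smul_smul, pow_add, mul_inv, ← mul_assoc, mul_inv_cancel₀ (hlk c), one_mul]
    rw [h3, smul_sub, smul_smul, mul_inv_cancel₀ (hlk k), one_smul]
  obtain ⟨v, hv⟩ := hmem
  exact ⟨v, fun g => (congrFun hv g).symm⟩

end Pool.Agent.Work.MP_787500_nt.OP
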