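import Mathlib
import Pool.Agent.Work.MP_787500_nt.OP.Dual

/-!
# Module OP/LagL: the ordinary condition is Lagrangian
-/

set_option autoImplicit false
set_option linter.unusedSectionVars false

namespace Pool.Agent.Work.MP_787500_nt.OP

open Matrix
open Pool.Agent.Work.MP_787500_nt.GP (A0 IsAct d0 d1 d2 tw cup11 cup21 cup12 cup01 cup02 EvPow IsPow OE MN
  actN actQ bN bil mq lft mq_lft mq_eq mq_add mq_smul Wq Lat pr0 lamN mem_OE bil_add_left bil_add_right bil_sub_left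
  bil_sub_right bil_smul_left bil_smul_right pr0_zero_of_norm actQ_mq)
open Pool.Agent.Work.MP_787500_nt.KR (FSys Sm1 Sm2 IsChar Smooth Z1 Z2 B2 LocH LocD Pair LDual LocRep ZV PerpV zV)
open Pool.Agent.Work.MP_787500_nt.QS (QM Lag pB Zq)
open Pool.Agent.Work.MP_787500_nt.QV (QRep LagV beN laN lamE)
open Pool.Agent.Work.MP_787500_nt.PA (toE)

universe v

variable {E : Type v} [NormedField E] [NormedAlgebra ℚ_[2] E] [FiniteDimensional ℚ_[2] E] {n m : ℕ}
  {P : Type*} [Group P] {TP : FSys P} {χ : P → ℤ_[2]} {iv : (P → P → A0) → A0} {l : OE E}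
  {t : E →ₗ[ℚ_[2]] ℚ_[2]} {T : Submodule (OE E) (Fin n → E)} {β Sm J : Matrix (Fin n) (Fin n) E}
  {ρ : P → Matrix (Fin n) (Fin n) E} {i s : (Fin m → E) →ₗ[E] (Fin n → E)}
  {r p : (Fin n → E) →ₗ[E] (Fin m → E)} {T' : Submodule (OE E) (Fin m → E)}
  {b' : Matrix (Fin m) (Fin m) E} {ρp ρm : P → Matrix (Fin m) (Fin m) E}

private theorem n1_const {A : Type*} [NormedAddCommGroup A] (a : A) : KP.N1 TP (fun _ : P => a) := by
  intro ε hε
  obtain ⟨W, hW⟩ := TP.ex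
  exact ⟨W, hW, fun g w _ => by simpa using hε⟩

private theorem n1_J {X : P → Fin n → E} (hX : KP.N1 TP X) :
    KP.N1 TP (fun d => J *ᵥ X d) := by
  have := n1_lin (Matrix.toLin' J) hX
  simpa only [Matrix.toLin'_apply] using this

/-- the alternating form is invariant up to the character -/
private theorem sm_act (h : QRep TP χ l t T β Sm J ρ) (g : P) (x y : Fin n → E) :
    bil Sm (ρ g *ᵥ x) (J *ᵥ (ρ g *ᵥ y)) = toE E (χ g) * bil Sm x (J *ᵥ y) := by
  rw [← h.alt, ← h.alt]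
  exact alt_act h g x y

private theorem be_left (h : QRep TP χ l t T β Sm J ρ) (x : Fin n → E) {Z : P → Fin n → E}
    (hZ : ZV TP ρ Z) :
    KP.BE TP χ (fun g u => bil Sm (ρ g *ᵥ x - x) (J *ᵥ (ρ g *ᵥ Z u))) := by
  refine ⟨fun g => bil Sm x (J *ᵥ Z g), n1_bil Sm (n1_const x) (n1_J hZ.1), ?_⟩
  funext g u
  simp only [PA.dE]
  rw [hZ.2 g u, mulVec_add, bil_add_right, bil_sub_left, sm_act h]
  ring

private theorem be_right (h : QRep TP χ l t T β Sm J ρ) (x : Fin n → E) {X : P → Fin n → E}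
    (hX : ZV TP ρ X) :
    KP.BE TP χ (fun g u => bil Sm (X g) (J *ᵥ (ρ g *ᵥ (ρ u *ᵥ x - x)))) := by
  refine ⟨fun g => (-1 : E) * bil Sm (X g) (J *ᵥ (ρ g *ᵥ x)), ?_, ?_⟩
  · have h1 := n1_bil Sm hX.1 (n1_J (J := J) (n1_act h.rep x))
    intro ε hε
    obtain ⟨W, hW, h3⟩ := h1 ε hε
    refine ⟨W, hW, fun g w hw => ?_⟩
    have h4 := h3 g w hw
    rw [← mul_sub, norm_mul, norm_neg, norm_one, one_mul]
    exact h4
  · funext g u
    simp only [PA.dE]
    have h1 : ρ (g * u) *ᵥ x = ρ g *ᵥ (ρ u *ᵥ x) := by rw [h.rep.mul, mulVec_mulVec]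
    rw [hX.2 g u, h1, mulVec_sub, mulVec_sub, bil_sub_right, bil_add_left, sm_act h g (X u) (ρ u *ᵥ x)]
    ring

/-- the decomposition of an element of the condition -/
private theorem split (h : QRep TP χ l t T β Sm J ρ)
    (hS : Spl TP χ l t T β ρ i s r p T' b' ρp ρm) {X : P → Fin n → E}
    (hX : X ∈ ordL TP ρ p ρm) : ∃ (X' : P → Fin m → E) (v : Fin n → E),
      ZV TP ρ (fun g => i (X' g)) ∧ ∀ g, X g = i (X' g) + (ρ g *ᵥ v - v) := by
  obtain ⟨h1, v, h2⟩ := hX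
  have hU : ZV TP ρ (X - fun g => ρ g *ᵥ s v - s v) :=
    (zV TP ρ).sub_mem h1 (cob_zv h.rep (s v))
  set U : P → Fin n → E := X - fun g => ρ g *ᵥ s v - s v with hUd
  have hUe : ∀ g, U g = X g - (ρ g *ᵥ s v - s v) := fun g => rfl
  have hp : ∀ g, p (U g) = 0 := by
    intro g
    rw [hUe, map_sub, map_sub, hS.actm, hS.ps, h2 g, sub_self]
  have hi : ∀ g, i (r (U g)) = U g := by
    intro g
    have h1 := hS.dec (U g)
    rwa [hp, map_zero, add_zero] at h1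
  refine ⟨fun g => r (U g), s v, ?_, fun g => ?_⟩
  · have e : (fun g => i (r (U g))) = U := funext hi
    rw [e]
    exact hU
  · show X g = i (r (U g)) + _
    rw [hi, hUe]
    abel

theorem lag_ord (H : LocD.{v} TP χ iv) (h : QRep TP χ l t T β Sm J ρ)
    (hS : Spl TP χ l t T β ρ i s r p T' b' ρp ρm) : LagV TP χ Sm J ρ (ordL TP ρ p ρm) := by
  refine ⟨fun X hX => hX.1, fun v => ⟨cob_zv h.rep v, p v, fun g => ?_⟩, fun Y hY => ⟨?_, ?_⟩⟩
  · show p (ρ g *ᵥ v - v) = _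
    rw [map_sub, hS.actm]
  · intro hYL X hXL
    obtain ⟨X', v, hX1, hX2⟩ := split h hS hXL
    obtain ⟨Y', w, hY1, hY2⟩ := split h hS hYL
    have e : (fun g u => bil Sm (X g) (J *ᵥ (ρ g *ᵥ Y u))) = fun g u =>
        bil Sm (ρ g *ᵥ v - v) (J *ᵥ (ρ g *ᵥ i (Y' u))) +
          bil Sm (X g) (J *ᵥ (ρ g *ᵥ (ρ u *ᵥ w - w))) := by
      funext g u
      have h0 : bil Sm (i (X' g)) (J *ᵥ (ρ g *ᵥ i (Y' u))) = 0 := by
        rw [← h.alt, hS.actp, hS.be0, hS.be0, sub_zero]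
      conv_lhs => rw [hY2 u, mulVec_add, mulVec_add, bil_add_right]
      congr 1
      conv_lhs => rw [hX2 g, bil_add_left, h0, zero_add]
    rw [e]
    exact KR.be_add (be_left h v hY1) (be_right h w hXL.1)
  · intro hperp
    refine ⟨hY, ?_⟩
    refine perp_all H hS.lat hS.rep (Y := fun g => p (Y g)) ⟨n1_lin p hY.1, fun g u => ?_⟩ ?_
    · show p (Y (g * u)) = p (Y g) + ρm g *ᵥ p (Y u)
      rw [hY.2, map_add, hS.actm]
    · intro X' hX'
      have h1 := hperp (fun g => i (X' g)) ⟨⟨n1_lin i hX'.1, fun g u => by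
        show i (X' (g * u)) = i (X' g) + ρ g *ᵥ i (X' u)
        rw [hX'.2, map_add, hS.actp]⟩, 0, fun g => by
        rw [hS.pi, mulVec_zero, sub_zero]⟩
      have e : (fun g u => bil Sm (i (X' g)) (J *ᵥ (ρ g *ᵥ Y u))) = fun g u =>
          bil b' (X' g) (ρm g *ᵥ p (Y u)) := by
        funext g u
        rw [← h.alt, hS.pair, hS.actm]
      rw [e] at h1
      exact h1

end Pool.Agent.Work.MP_787500_nt.OP
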